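import Pool.Agent.H15.WR.Gram

/-!
# Weyl remainder, part 2: functions with compact support
-/

set_option autoImplicit false

open Set Filter Topology MeasureTheory
open scoped Real ContDiff
open Pool.Agent.Y252.QR.Dir1

noncomputable section

namespace Pool.Agent.H15.WR

/-! ### the cutoff -/

/-- a smooth cutoff -/
def chi (n : ℕ) (x : ℝ) : ℝ :=
  Real.smoothTransition (4 * (n * x) - 2) * Real.smoothTransition (4 * (n * (1 - x)) - 2)

lemma chi_smooth (n : ℕ) : ContDiff ℝ 1 (chi n) := by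
  unfold chi
  exact (Real.smoothTransition.contDiff.comp (by fun_prop)).mul
    (Real.smoothTransition.contDiff.comp (by fun_prop))

lemma chi_nonneg (n : ℕ) (x : ℝ) : 0 ≤ chi n x :=
  mul_nonneg (Real.smoothTransition.nonneg _) (Real.smoothTransition.nonneg _)

lemma chi_le (n : ℕ) (x : ℝ) : chi n x ≤ 1 :=
  mul_le_one₀ (Real.smoothTransition.le_one _) (Real.smoothTransition.nonneg _)
    (Real.smoothTransition.le_one _)

lemma chi_zero (n : ℕ) (x : ℝ) (h : n * x ≤ 1 / 2 ∨ n * (1 - x) ≤ 1 / 2) : chi n x = 0 := by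
  unfold chi
  rcases h with h | h
  · rw [Real.smoothTransition.zero_of_nonpos (by linarith), zero_mul]
  · rw [Real.smoothTransition.zero_of_nonpos (x := 4 * (n * (1 - x)) - 2) (by linarith), mul_zero]

lemma chi_one (n : ℕ) (x : ℝ) (h1 : 1 ≤ n * x) (h2 : 1 ≤ n * (1 - x)) : chi n x = 1 := by
  unfold chi
  rw [Real.smoothTransition.one_of_one_le (by linarith),
    Real.smoothTransition.one_of_one_le (by linarith), mul_one]

lemma chi_lim (x : ℝ) (h0 : 0 < x) (h1 : x < 1) : Tendsto (fun n => chi n x) atTop (𝓝 1) := by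
  refine tendsto_const_nhds.congr' ?_
  have g1 : Tendsto (fun n : ℕ => (n : ℝ) * x) atTop atTop :=
    tendsto_natCast_atTop_atTop.atTop_mul_const h0
  have g2 : Tendsto (fun n : ℕ => (n : ℝ) * (1 - x)) atTop atTop :=
    tendsto_natCast_atTop_atTop.atTop_mul_const (by linarith)
  filter_upwards [g1.eventually_ge_atTop 1, g2.eventually_ge_atTop 1] with n h2 h3
  exact (chi_one n x h2 h3).symm

lemma out' (n : ℕ) (x : ℝ) (hx : x ∉ Ioo (0 : ℝ) 1) : n * x ≤ 1 / 2 ∨ n * (1 - x) ≤ 1 / 2 := by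
  have hn : (0 : ℝ) ≤ n := Nat.cast_nonneg n
  rw [mem_Ioo, not_and_or, not_lt, not_lt] at hx
  rcases hx with hx | hx
  · left
    have := mul_nonpos_of_nonneg_of_nonpos hn hx
    linarith
  · right
    have := mul_nonpos_of_nonneg_of_nonpos hn (by linarith : 1 - x ≤ 0)
    linarith

lemma chi_supp {n : ℕ} (hn : 0 < n) : Function.support (chi n) ⊆
    Icc (1 / (2 * (n : ℝ))) (1 - 1 / (2 * (n : ℝ))) := by
  have hn' : (0 : ℝ) < n := by exact_mod_cast hn
  intro x hx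
  by_contra hne
  refine hx (chi_zero n x ?_)
  rw [mem_Icc, not_and_or, not_le, not_le] at hne
  rcases hne with hne | hne
  · left
    rw [lt_div_iff₀ (by positivity)] at hne
    linarith
  · right
    have h : 1 - x < 1 / (2 * (n : ℝ)) := by linarith
    rw [lt_div_iff₀ (by positivity)] at h
    linarith

/-! ### the modulated functions -/

/-- the modulation -/
def F (a : ℝ) (p : ℤ) (n : ℕ) (x : ℝ) : ℝ := 1 + a * Real.cos (p * π * rho n x)

/-- its derivative -/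
def Fd (a : ℝ) (p : ℤ) (n : ℕ) (x : ℝ) : ℝ :=
  -(a * (Real.sin (p * π * rho n x) * (p * π))) * (hh n x / J n 1)

/-- the functions -/
def X (a : ℝ) (p : ℤ) (n k : ℕ) (x : ℝ) : ℝ := F a p n x * gg n k x

/-- the derivatives -/
def Xd (a : ℝ) (p : ℤ) (n k : ℕ) (x : ℝ) : ℝ := Fd a p n x * gg n k x + F a p n x * gd n k x

/-- the pattern -/
def q (p : ℤ) (n : ℕ) (x : ℝ) : ℝ := Real.cos (p * π * rho n x) * chi n x

lemma F_deriv (a : ℝ) (p : ℤ) (n : ℕ) (x : ℝ) : HasDerivAt (F a p n) (Fd a p n x) x := by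
  have h := ((((rho_deriv n x).const_mul ((p : ℝ) * π)).cos).const_mul a).const_add 1
  refine h.congr_deriv ?_
  unfold Fd
  ring

lemma X_deriv (a : ℝ) (p : ℤ) (n k : ℕ) (x : ℝ) : HasDerivAt (X a p n k) (Xd a p n k x) x :=
  (F_deriv a p n x).mul (gg_deriv n k x)

lemma F_cont (a : ℝ) (p : ℤ) (n : ℕ) : Continuous (F a p n) := by
  unfold F
  have := rho_cont n
  fun_prop

lemma Fd_cont (a : ℝ) (p : ℤ) (n : ℕ) : Continuous (Fd a p n) := by
  unfold Fd
  have h1 := rho_cont n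
  have h2 := hh_cont n
  fun_prop

lemma X_cont (a : ℝ) (p : ℤ) (n k : ℕ) : Continuous (X a p n k) :=
  (F_cont a p n).mul (gg_cont n k)

lemma Xd_cont (a : ℝ) (p : ℤ) (n k : ℕ) : Continuous (Xd a p n k) :=
  ((Fd_cont a p n).mul (gg_cont n k)).add ((F_cont a p n).mul (gd_cont n k))

lemma X_smooth (a : ℝ) (p : ℤ) (n k : ℕ) : ContDiff ℝ 1 (X a p n k) := by
  rw [contDiff_one_iff_deriv]
  refine ⟨fun x => (X_deriv a p n k x).differentiableAt, ?_⟩
  have : deriv (X a p n k) = Xd a p n k := funext fun x => (X_deriv a p n k x).deriv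
  rw [this]
  exact Xd_cont a p n k

lemma rho_smooth (n : ℕ) : ContDiff ℝ 1 (rho n) := by
  rw [contDiff_one_iff_deriv]
  refine ⟨fun x => (rho_deriv n x).differentiableAt, ?_⟩
  have : deriv (rho n) = fun x => hh n x / J n 1 := funext fun x => (rho_deriv n x).deriv
  rw [this]
  exact (hh_cont n).div_const _

lemma q_smooth (p : ℤ) (n : ℕ) : ContDiff ℝ 1 (q p n) := by
  unfold q
  exact (Real.contDiff_cos.comp (contDiff_const.mul (rho_smooth n))).mul (chi_smooth n)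

lemma q_abs (p : ℤ) (n : ℕ) (x : ℝ) : |q p n x| ≤ 1 := by
  unfold q
  rw [abs_mul, abs_of_nonneg (chi_nonneg n x)]
  exact mul_le_one₀ (Real.abs_cos_le_one _) (chi_nonneg n x) (chi_le n x)

lemma F_abs (a : ℝ) (p : ℤ) (n : ℕ) (x : ℝ) : |F a p n x| ≤ 1 + |a| := by
  unfold F
  refine (abs_add_le _ _).trans ?_
  rw [abs_one, abs_mul]
  have h := mul_le_of_le_one_right (abs_nonneg a) (Real.abs_cos_le_one (p * π * rho n x))
  linarith

lemma Fd_abs (a : ℝ) (p : ℤ) (n : ℕ) (x : ℝ) (hJ : 1 / 2 ≤ J n 1) :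
    |Fd a p n x| ≤ |a| * |(p : ℝ) * π| * 2 := by
  unfold Fd
  rw [abs_mul, abs_neg, abs_mul, abs_mul, abs_div, abs_of_nonneg (by linarith : 0 ≤ J n 1)]
  have h1 : |Real.sin (p * π * rho n x)| * |(p : ℝ) * π| ≤ |(p : ℝ) * π| :=
    mul_le_of_le_one_left (abs_nonneg _) (Real.abs_sin_le_one _)
  have h2 : |hh n x| / J n 1 ≤ 2 := by
    rw [div_le_iff₀ (by linarith)]
    linarith [hh_abs n x]
  exact mul_le_mul (mul_le_mul_of_nonneg_left h1 (abs_nonneg a)) h2
    (div_nonneg (abs_nonneg _) (by linarith)) (by positivity)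

lemma X_abs (a : ℝ) (p : ℤ) (n k : ℕ) (x : ℝ) : |X a p n k x| ≤ (1 + |a|) * Real.sqrt 2 := by
  unfold X
  rw [abs_mul]
  exact mul_le_mul (F_abs a p n x) (gg_abs n k x) (abs_nonneg _) (by positivity)

lemma Xd_abs (a : ℝ) (p : ℤ) (n k : ℕ) (x : ℝ) (hJ : 1 / 2 ≤ J n 1) : |Xd a p n k x| ≤
    |a| * |(p : ℝ) * π| * 2 * Real.sqrt 2 + (1 + |a|) * (Real.sqrt 2 * ((k + 1) * π) * 2) := by
  unfold Xd
  refine (abs_add_le _ _).trans ?_
  rw [abs_mul, abs_mul]
  have h1 := mul_le_mul (Fd_abs a p n x hJ) (gg_abs n k x) (abs_nonneg _) (by positivity)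
  have h2 := mul_le_mul (F_abs a p n x) (gd_abs n k x hJ) (abs_nonneg _) (by positivity)
  linarith

lemma X_zero (a : ℝ) (p : ℤ) (n k : ℕ) (x : ℝ) (hJ : J n 1 ≠ 0)
    (h : n * x ≤ 1 ∨ n * (1 - x) ≤ 1) : X a p n k x = 0 := by
  unfold X
  rw [gg_zero n k x hJ h, mul_zero]

lemma Xd_zero (a : ℝ) (p : ℤ) (n k : ℕ) (x : ℝ) (hJ : J n 1 ≠ 0)
    (h : n * x ≤ 1 ∨ n * (1 - x) ≤ 1) : Xd a p n k x = 0 := by
  unfold Xd
  rw [gg_zero n k x hJ h, gd_zero n k x h, mul_zero, mul_zero, add_zero]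

/-- where a function does not vanish, the cutoff is one -/
lemma chi_gg (n k : ℕ) (x : ℝ) (hJ : J n 1 ≠ 0) (h : gg n k x ≠ 0) : chi n x = 1 := by
  by_contra hc
  refine h (gg_zero n k x hJ ?_)
  by_contra hn
  push Not at hn
  exact hc (chi_one n x hn.1.le hn.2.le)

/-! ### limits -/

lemma F_lim (a : ℝ) (p : ℤ) (x : ℝ) (h0 : 0 ≤ x) (h1 : x ≤ 1) :
    Tendsto (fun n => F a p n x) atTop (𝓝 (f a p x)) :=
  (((Real.continuous_cos.tendsto _).comp ((rho_lim x h0 h1).const_mul ((p : ℝ) * π))).const_mul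
    a).const_add 1

lemma hJ_lim (x : ℝ) (h0 : 0 < x) (h1 : x < 1) :
    Tendsto (fun n => hh n x / J n 1) atTop (𝓝 1) := by
  have := (hh_lim x h0 h1).div (J_lim 1 zero_le_one le_rfl) one_ne_zero
  rw [div_one] at this
  exact this

lemma Fd_lim (a : ℝ) (p : ℤ) (x : ℝ) (h0 : 0 < x) (h1 : x < 1) :
    Tendsto (fun n => Fd a p n x) atTop (𝓝 (fd a p x)) := by
  have h := ((((Real.continuous_sin.tendsto _).comp ((rho_lim x h0.le h1.le).const_mul
    ((p : ℝ) * π))).mul_const ((p : ℝ) * π)).const_mul a).neg.mul (hJ_lim x h0 h1)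
  rw [mul_one] at h
  exact h

lemma gg_lim (k : ℕ) (x : ℝ) (h0 : 0 ≤ x) (h1 : x ≤ 1) :
    Tendsto (fun n => gg n k x) atTop (𝓝 (s k x)) :=
  ((Real.continuous_sin.tendsto _).comp ((rho_lim x h0 h1).const_mul (((k : ℝ) + 1) * π))).const_mul _

lemma gd_lim (k : ℕ) (x : ℝ) (h0 : 0 < x) (h1 : x < 1) :
    Tendsto (fun n => gd n k x) atTop (𝓝 (sd k x)) := by
  have h := ((((Real.continuous_cos.tendsto _).comp ((rho_lim x h0.le h1.le).const_mul
    (((k : ℝ) + 1) * π))).mul_const (((k : ℝ) + 1) * π)).const_mul (Real.sqrt 2)).mul (hJ_lim x h0 h1)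
  rw [mul_one] at h
  exact h

lemma X_lim (a : ℝ) (p : ℤ) (k : ℕ) (x : ℝ) (h0 : 0 < x) (h1 : x < 1) :
    Tendsto (fun n => X a p n k x) atTop (𝓝 (f a p x * s k x)) :=
  (F_lim a p x h0.le h1.le).mul (gg_lim k x h0.le h1.le)

lemma Xd_lim (a : ℝ) (p : ℤ) (k : ℕ) (x : ℝ) (h0 : 0 < x) (h1 : x < 1) :
    Tendsto (fun n => Xd a p n k x) atTop (𝓝 (fd a p x * s k x + f a p x * sd k x)) :=
  ((Fd_lim a p x h0 h1).mul (gg_lim k x h0.le h1.le)).add
    ((F_lim a p x h0.le h1.le).mul (gd_lim k x h0 h1))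

lemma q_lim (p : ℤ) (x : ℝ) (h0 : 0 < x) (h1 : x < 1) :
    Tendsto (fun n => q p n x) atTop (𝓝 (Real.cos (p * π * x))) := by
  have h := ((Real.continuous_cos.tendsto _).comp ((rho_lim x h0.le h1.le).const_mul
    ((p : ℝ) * π))).mul (chi_lim x h0 h1)
  rw [mul_one] at h
  exact h

lemma limX {p : ℤ} {K : ℕ} (hp : 2 * (K : ℤ) < p) {k l : ℕ} (hk : k < K) (hl : l < K) (a d : ℝ) :
    Tendsto (fun n => ∫ x, (1 + d * q p n x) * (X a p n k x * X a p n l x)) atTop
      (𝓝 (if k = l then 1 + a ^ 2 / 2 + d * a else 0)) := by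
  rw [← A0 hp hk hl a d]
  refine dct _ _ ((1 + |d|) * (((1 + |a|) * Real.sqrt 2) * ((1 + |a|) * Real.sqrt 2)))
    (fun n => (continuous_const.add (continuous_const.mul (q_smooth p n).continuous)).mul
      ((X_cont a p n k).mul (X_cont a p n l))) ?_ ?_ ?_
  · filter_upwards [J_half] with n hn x hx
    rw [X_zero a p n k x (by linarith) (out n x hx), zero_mul, mul_zero]
  · refine Eventually.of_forall fun n x => ?_
    rw [abs_mul, abs_mul]
    have h1 : |1 + d * q p n x| ≤ 1 + |d| := by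
      refine (abs_add_le _ _).trans ?_
      rw [abs_one, abs_mul]
      have h := mul_le_of_le_one_right (abs_nonneg d) (q_abs p n x)
      linarith
    exact mul_le_mul h1 (mul_le_mul (X_abs a p n k x) (X_abs a p n l x) (abs_nonneg _)
      (by positivity)) (by positivity) (by positivity)
  · intro x hx
    exact (((q_lim p x hx.1 hx.2).const_mul d).const_add 1).mul
      ((X_lim a p k x hx.1 hx.2).mul (X_lim a p l x hx.1 hx.2))

lemma limX0 {p : ℤ} {K : ℕ} (hp : 2 * (K : ℤ) < p) {k l : ℕ} (hk : k < K) (hl : l < K) (a : ℝ) :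
    Tendsto (fun n => ∫ x, X a p n k x * X a p n l x) atTop
      (𝓝 (if k = l then 1 + a ^ 2 / 2 else 0)) := by
  have h := limX hp hk hl a 0
  simpa using h

lemma limXd {p : ℤ} {K : ℕ} (hp : 2 * (K : ℤ) < p) {k l : ℕ} (hk : k < K) (hl : l < K) (a : ℝ) :
    Tendsto (fun n => ∫ x, Xd a p n k x * Xd a p n l x) atTop
      (𝓝 (if k = l then (1 + a ^ 2 / 2) * (π * (k + 1)) ^ 2 + a ^ 2 * (p * π) ^ 2 / 2 else 0)) := by
  rw [← A1 hp hk hl a]
  refine dct _ _ ((|a| * |(p : ℝ) * π| * 2 * Real.sqrt 2 +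
      (1 + |a|) * (Real.sqrt 2 * ((k + 1) * π) * 2)) * (|a| * |(p : ℝ) * π| * 2 * Real.sqrt 2 +
      (1 + |a|) * (Real.sqrt 2 * ((l + 1) * π) * 2)))
    (fun n => (Xd_cont a p n k).mul (Xd_cont a p n l)) ?_ ?_ ?_
  · filter_upwards [J_half] with n hn x hx
    rw [Xd_zero a p n k x (by linarith) (out n x hx), zero_mul]
  · filter_upwards [J_half] with n hn x
    rw [abs_mul]
    exact mul_le_mul (Xd_abs a p n k x hn) (Xd_abs a p n l x hn) (abs_nonneg _) (by positivity)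
  · intro x hx
    exact (Xd_lim a p k x hx.1 hx.2).mul (Xd_lim a p l x hx.1 hx.2)

lemma limq {p : ℤ} (hp : 0 < p) : Tendsto (fun n => ∫ x, q p n x) atTop (𝓝 0) := by
  have h0 : ∫ x in (0 : ℝ)..1, Real.cos (p * π * x) = 0 := by
    rw [ic, if_neg (by omega)]
  rw [← h0]
  refine dct _ _ 1 (fun n => (q_smooth p n).continuous) ?_ ?_ ?_
  · refine Eventually.of_forall fun n x hx => ?_
    unfold q
    rw [chi_zero n x (out' n x hx), mul_zero]
  · exact Eventually.of_forall fun n x => q_abs p n x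
  · intro x hx
    exact q_lim p x hx.1 hx.2

lemma chi_int (n : ℕ) : |∫ x, chi n x| ≤ 1 := by
  have e : ∫ x, chi n x = ∫ x in Ioo (0 : ℝ) 1, chi n x :=
    (setIntegral_eq_integral_of_forall_compl_eq_zero fun x hx =>
      chi_zero n x (out' n x hx)).symm
  rw [e]
  have h := norm_setIntegral_le_of_norm_le_const (μ := (volume : Measure ℝ)) (s := Ioo (0 : ℝ) 1)
    (f := chi n) (C := 1) (by simp) (fun x _ => by
      rw [Real.norm_eq_abs, abs_of_nonneg (chi_nonneg n x)]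
      exact chi_le n x)
  simpa using h

end Pool.Agent.H15.WR
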