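import Pool.Graph.R_seed8.Y264.QR.All

/-!
# Weyl remainder, part 1: modulated sines on the unit interval

`X n k = f · s_k`, where `s_k` are the orthonormal sines and `f = 1 + a cos (p π x)`, both composed
with a change of variables which makes the support compact.
-/

set_option autoImplicit false

open Set Filter Topology MeasureTheory
open scoped Real ContDiff
open Pool.Agent.Y252.QR.Dir1

noncomputable section

namespace Pool.Agent.H15.WR

/-! ### trigonometric integrals -/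

lemma sinc (m : ℤ) : Continuous fun x : ℝ => Real.sin (m * π * x) := by fun_prop

lemma icc (j m : ℤ) : ∫ x in (0 : ℝ)..1, Real.cos (j * π * x) * Real.cos (m * π * x) =
    ((if j - m = 0 then 1 else 0) + (if j + m = 0 then 1 else 0)) / 2 := by
  have e : ∀ x : ℝ, Real.cos (j * π * x) * Real.cos (m * π * x) =
      (1 / 2) * (Real.cos (((j - m : ℤ)) * π * x) + Real.cos (((j + m : ℤ)) * π * x)) := by
    intro x
    have e1 : (((j - m : ℤ)) : ℝ) * π * x = j * π * x - m * π * x := by push_cast; ring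
    have e2 : (((j + m : ℤ)) : ℝ) * π * x = j * π * x + m * π * x := by push_cast; ring
    rw [e1, e2, Real.cos_sub, Real.cos_add]
    ring
  simp only [e]
  rw [intervalIntegral.integral_const_mul, intervalIntegral.integral_add
    ((cosc _).intervalIntegrable _ _) ((cosc _).intervalIntegrable _ _), ic, ic]
  ring

lemma iss (j m : ℤ) : ∫ x in (0 : ℝ)..1, Real.sin (j * π * x) * Real.sin (m * π * x) =
    ((if j - m = 0 then 1 else 0) - (if j + m = 0 then 1 else 0)) / 2 := by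
  have e : ∀ x : ℝ, Real.sin (j * π * x) * Real.sin (m * π * x) =
      (1 / 2) * (Real.cos (((j - m : ℤ)) * π * x) - Real.cos (((j + m : ℤ)) * π * x)) := by
    intro x
    have e1 : (((j - m : ℤ)) : ℝ) * π * x = j * π * x - m * π * x := by push_cast; ring
    have e2 : (((j + m : ℤ)) : ℝ) * π * x = j * π * x + m * π * x := by push_cast; ring
    rw [e1, e2, Real.cos_sub, Real.cos_add]
    ring
  simp only [e]
  rw [intervalIntegral.integral_const_mul, intervalIntegral.integral_sub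
    ((cosc _).intervalIntegrable _ _) ((cosc _).intervalIntegrable _ _), ic, ic]
  ring

/-- a combination of high frequencies -/
def cp (p : ℤ) (b0 b1 b2 b3 x : ℝ) : ℝ :=
  b0 * Real.cos ((0 : ℤ) * π * x) + b1 * Real.cos (p * π * x) +
    b2 * Real.cos ((2 * p : ℤ) * π * x) + b3 * Real.cos ((3 * p : ℤ) * π * x)

/-- a combination of high frequencies -/
def sp (p : ℤ) (g1 g2 x : ℝ) : ℝ :=
  g1 * Real.sin (p * π * x) + g2 * Real.sin ((2 * p : ℤ) * π * x)

lemma cp_cont (p : ℤ) (b0 b1 b2 b3 : ℝ) : Continuous (cp p b0 b1 b2 b3) := by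
  unfold cp
  fun_prop

lemma sp_cont (p : ℤ) (g1 g2 : ℝ) : Continuous (sp p g1 g2) := by
  unfold sp
  fun_prop

lemma icp {p m : ℤ} (hm : |m| < p) (b0 b1 b2 b3 : ℝ) :
    ∫ x in (0 : ℝ)..1, cp p b0 b1 b2 b3 x * Real.cos (m * π * x) = if m = 0 then b0 else 0 := by
  obtain ⟨h1, h2⟩ := abs_lt.1 hm
  have hi : ∀ (b : ℝ) (j : ℤ), IntervalIntegrable
      (fun x : ℝ => b * (Real.cos (j * π * x) * Real.cos (m * π * x))) volume 0 1 := fun b j =>
    (continuous_const.mul ((cosc j).mul (cosc m))).intervalIntegrable _ _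
  have e : ∀ x : ℝ, cp p b0 b1 b2 b3 x * Real.cos (m * π * x) =
      b0 * (Real.cos ((0 : ℤ) * π * x) * Real.cos (m * π * x)) +
      b1 * (Real.cos (p * π * x) * Real.cos (m * π * x)) +
      b2 * (Real.cos ((2 * p : ℤ) * π * x) * Real.cos (m * π * x)) +
      b3 * (Real.cos ((3 * p : ℤ) * π * x) * Real.cos (m * π * x)) := by
    intro x
    unfold cp
    ring
  simp only [e]
  rw [intervalIntegral.integral_add (((hi _ _).add (hi _ _)).add (hi _ _)) (hi _ _),
    intervalIntegral.integral_add ((hi _ _).add (hi _ _)) (hi _ _),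
    intervalIntegral.integral_add (hi _ _) (hi _ _),
    intervalIntegral.integral_const_mul, intervalIntegral.integral_const_mul,
    intervalIntegral.integral_const_mul, intervalIntegral.integral_const_mul, icc, icc, icc, icc]
  rw [if_neg (by omega : ¬ (p - m = 0)), if_neg (by omega : ¬ (p + m = 0)),
    if_neg (by omega : ¬ (2 * p - m = 0)), if_neg (by omega : ¬ (2 * p + m = 0)),
    if_neg (by omega : ¬ (3 * p - m = 0)), if_neg (by omega : ¬ (3 * p + m = 0))]
  by_cases h : m = 0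
  · rw [if_pos (by omega), if_pos (by omega), if_pos h]
    ring
  · rw [if_neg (by omega), if_neg (by omega), if_neg h]
    ring

lemma isp {p m : ℤ} (hm : |m| < p) (g1 g2 : ℝ) :
    ∫ x in (0 : ℝ)..1, sp p g1 g2 x * Real.sin (m * π * x) = 0 := by
  obtain ⟨h1, h2⟩ := abs_lt.1 hm
  have hi : ∀ (b : ℝ) (j : ℤ), IntervalIntegrable
      (fun x : ℝ => b * (Real.sin (j * π * x) * Real.sin (m * π * x))) volume 0 1 := fun b j =>
    (continuous_const.mul ((sinc j).mul (sinc m))).intervalIntegrable _ _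
  have e : ∀ x : ℝ, sp p g1 g2 x * Real.sin (m * π * x) =
      g1 * (Real.sin (p * π * x) * Real.sin (m * π * x)) +
      g2 * (Real.sin ((2 * p : ℤ) * π * x) * Real.sin (m * π * x)) := by
    intro x
    unfold sp
    ring
  simp only [e]
  rw [intervalIntegral.integral_add (hi _ _) (hi _ _),
    intervalIntegral.integral_const_mul, intervalIntegral.integral_const_mul, iss, iss]
  rw [if_neg (by omega : ¬ (p - m = 0)), if_neg (by omega : ¬ (p + m = 0)),
    if_neg (by omega : ¬ (2 * p - m = 0)), if_neg (by omega : ¬ (2 * p + m = 0))]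
  ring

/-! ### the limits of the functions -/

/-- the sines -/
def s (k : ℕ) (x : ℝ) : ℝ := Real.sqrt 2 * Real.sin ((k + 1) * π * x)

/-- their derivatives -/
def sd (k : ℕ) (x : ℝ) : ℝ := Real.sqrt 2 * (Real.cos ((k + 1) * π * x) * ((k + 1) * π))

/-- the modulation -/
def f (a : ℝ) (p : ℤ) (x : ℝ) : ℝ := 1 + a * Real.cos (p * π * x)

/-- its derivative -/
def fd (a : ℝ) (p : ℤ) (x : ℝ) : ℝ := -(a * (Real.sin (p * π * x) * (p * π)))

lemma s_cont (k : ℕ) : Continuous (s k) := by unfold s; fun_prop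

lemma sd_cont (k : ℕ) : Continuous (sd k) := by unfold sd; fun_prop

lemma f_cont (a : ℝ) (p : ℤ) : Continuous (f a p) := by unfold f; fun_prop

lemma fd_cont (a : ℝ) (p : ℤ) : Continuous (fd a p) := by unfold fd; fun_prop

lemma ss_eq (k l : ℕ) (x : ℝ) : s k x * s l x =
    Real.cos (((k : ℤ) - (l : ℤ) : ℤ) * π * x) -
      Real.cos (((k : ℤ) + (l : ℤ) + 2 : ℤ) * π * x) := by
  unfold s
  have h2 : Real.sqrt 2 * Real.sqrt 2 = 2 := Real.mul_self_sqrt (by norm_num)
  have e1 : (((k : ℤ) - (l : ℤ) : ℤ) : ℝ) * π * x =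
      (k + 1) * π * x - (l + 1) * π * x := by push_cast; ring
  have e2 : (((k : ℤ) + (l : ℤ) + 2 : ℤ) : ℝ) * π * x =
      (k + 1) * π * x + (l + 1) * π * x := by push_cast; ring
  rw [e1, e2, Real.cos_sub, Real.cos_add]
  calc _ = (Real.sqrt 2 * Real.sqrt 2) *
        (Real.sin ((k + 1) * π * x) * Real.sin ((l + 1) * π * x)) := by ring
    _ = _ := by rw [h2]; ring

lemma sdsd_eq (k l : ℕ) (x : ℝ) : sd k x * sd l x =
    ((k + 1) * π * ((l + 1) * π)) * (Real.cos (((k : ℤ) - (l : ℤ) : ℤ) * π * x) +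
      Real.cos (((k : ℤ) + (l : ℤ) + 2 : ℤ) * π * x)) := by
  unfold sd
  have h2 : Real.sqrt 2 * Real.sqrt 2 = 2 := Real.mul_self_sqrt (by norm_num)
  have e1 : (((k : ℤ) - (l : ℤ) : ℤ) : ℝ) * π * x =
      (k + 1) * π * x - (l + 1) * π * x := by push_cast; ring
  have e2 : (((k : ℤ) + (l : ℤ) + 2 : ℤ) : ℝ) * π * x =
      (k + 1) * π * x + (l + 1) * π * x := by push_cast; ring
  rw [e1, e2, Real.cos_sub, Real.cos_add]
  calc _ = (Real.sqrt 2 * Real.sqrt 2) * ((k + 1) * π * ((l + 1) * π)) *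
        (Real.cos ((k + 1) * π * x) * Real.cos ((l + 1) * π * x)) := by ring
    _ = _ := by rw [h2]; ring

lemma ssd_eq (k l : ℕ) (x : ℝ) : s k x * sd l x + sd k x * s l x =
    (((k : ℝ) + l + 2) * π) * Real.sin (((k : ℤ) + (l : ℤ) + 2 : ℤ) * π * x) -
      (((k : ℝ) - l) * π) * Real.sin (((k : ℤ) - (l : ℤ) : ℤ) * π * x) := by
  unfold s sd
  have h2 : Real.sqrt 2 * Real.sqrt 2 = 2 := Real.mul_self_sqrt (by norm_num)
  have e1 : (((k : ℤ) - (l : ℤ) : ℤ) : ℝ) * π * x =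
      (k + 1) * π * x - (l + 1) * π * x := by push_cast; ring
  have e2 : (((k : ℤ) + (l : ℤ) + 2 : ℤ) : ℝ) * π * x =
      (k + 1) * π * x + (l + 1) * π * x := by push_cast; ring
  rw [e1, e2, Real.sin_sub, Real.sin_add]
  calc _ = (Real.sqrt 2 * Real.sqrt 2) * (Real.sin ((k + 1) * π * x) * Real.cos ((l + 1) * π * x) *
        ((l + 1) * π) + Real.cos ((k + 1) * π * x) * Real.sin ((l + 1) * π * x) *
        ((k + 1) * π)) := by ring
    _ = _ := by rw [h2]; ring

lemma sq_eq (a : ℝ) (p : ℤ) (x : ℝ) : (f a p x) ^ 2 = cp p (1 + a ^ 2 / 2) (2 * a) (a ^ 2 / 2) 0 x := by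
  unfold f cp
  have e : (((2 * p : ℤ)) : ℝ) * π * x = 2 * (p * π * x) := by push_cast; ring
  rw [e, Real.cos_two_mul]
  simp
  ring

lemma wsq_eq (a d : ℝ) (p : ℤ) (x : ℝ) : (1 + d * Real.cos (p * π * x)) * (f a p x) ^ 2 =
    cp p (1 + a ^ 2 / 2 + d * a) (2 * a + d + 3 * a ^ 2 * d / 4) (a ^ 2 / 2 + a * d)
      (a ^ 2 * d / 4) x := by
  unfold f cp
  have e : (((2 * p : ℤ)) : ℝ) * π * x = 2 * (p * π * x) := by push_cast; ring
  have e3 : (((3 * p : ℤ)) : ℝ) * π * x = 3 * (p * π * x) := by push_cast; ring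
  rw [e, e3, Real.cos_two_mul, Real.cos_three_mul]
  simp
  ring

lemma fdsq_eq (a : ℝ) (p : ℤ) (x : ℝ) : (fd a p x) ^ 2 =
    cp p (a ^ 2 * (p * π) ^ 2 / 2) 0 (-(a ^ 2 * (p * π) ^ 2 / 2)) 0 x := by
  unfold fd cp
  have e : (((2 * p : ℤ)) : ℝ) * π * x = 2 * (p * π * x) := by push_cast; ring
  rw [e, Real.cos_two_mul]
  have h := Real.sin_sq_add_cos_sq (p * π * x)
  have h1 : Real.sin (p * π * x) ^ 2 = 1 - Real.cos (p * π * x) ^ 2 := by linarith
  simp
  rw [mul_pow, mul_pow, h1]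
  ring

lemma ffd_eq (a : ℝ) (p : ℤ) (x : ℝ) : f a p x * fd a p x =
    sp p (-(a * (p * π))) (-(a ^ 2 * (p * π) / 2)) x := by
  unfold f fd sp
  have e : (((2 * p : ℤ)) : ℝ) * π * x = 2 * (p * π * x) := by push_cast; ring
  rw [e, Real.sin_two_mul]
  ring

/-- the first form -/
lemma A0 {p : ℤ} {K : ℕ} (hp : 2 * (K : ℤ) < p) {k l : ℕ} (hk : k < K) (hl : l < K) (a d : ℝ) :
    ∫ x in (0 : ℝ)..1, (1 + d * Real.cos (p * π * x)) * ((f a p x * s k x) * (f a p x * s l x)) =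
      if k = l then 1 + a ^ 2 / 2 + d * a else 0 := by
  have e : ∀ x : ℝ, (1 + d * Real.cos (p * π * x)) * ((f a p x * s k x) * (f a p x * s l x)) =
      cp p (1 + a ^ 2 / 2 + d * a) (2 * a + d + 3 * a ^ 2 * d / 4) (a ^ 2 / 2 + a * d)
      (a ^ 2 * d / 4) x * Real.cos (((k : ℤ) - (l : ℤ) : ℤ) * π * x) -
      cp p (1 + a ^ 2 / 2 + d * a) (2 * a + d + 3 * a ^ 2 * d / 4) (a ^ 2 / 2 + a * d)
      (a ^ 2 * d / 4) x * Real.cos (((k : ℤ) + (l : ℤ) + 2 : ℤ) * π * x) := by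
    intro x
    rw [← wsq_eq, ← mul_sub, ← ss_eq]
    ring
  simp only [e]
  have c1 : ∀ (b0 b1 b2 b3 : ℝ) (m : ℤ), IntervalIntegrable (fun x : ℝ =>
    cp p b0 b1 b2 b3 x * Real.cos (m * π * x)) volume 0 1 := fun b0 b1 b2 b3 m =>
    ((cp_cont _ _ _ _ _).mul (cosc _)).intervalIntegrable _ _
  rw [intervalIntegral.integral_sub (c1 _ _ _ _ _) (c1 _ _ _ _ _),
    icp (by rw [abs_lt]; constructor <;> omega), icp (by rw [abs_lt]; constructor <;> omega)]
  rw [if_neg (by omega : ¬ ((k : ℤ) + (l : ℤ) + 2 = 0)), sub_zero]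
  by_cases h : k = l
  · rw [if_pos h, if_pos (by omega)]
  · rw [if_neg h, if_neg (by omega)]

/-- the second form -/
lemma A2 {p : ℤ} {K : ℕ} (hp : 2 * (K : ℤ) < p) {k l : ℕ} (hk : k < K) (hl : l < K) (a : ℝ) :
    ∫ x in (0 : ℝ)..1, (f a p x * s k x) * (f a p x * s l x) =
      if k = l then 1 + a ^ 2 / 2 else 0 := by
  have h := A0 hp hk hl a 0
  simpa using h

/-- the third form -/
lemma A1 {p : ℤ} {K : ℕ} (hp : 2 * (K : ℤ) < p) {k l : ℕ} (hk : k < K) (hl : l < K) (a : ℝ) :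
    ∫ x in (0 : ℝ)..1, (fd a p x * s k x + f a p x * sd k x) *
        (fd a p x * s l x + f a p x * sd l x) =
      if k = l then (1 + a ^ 2 / 2) * (π * (k + 1)) ^ 2 + a ^ 2 * (p * π) ^ 2 / 2 else 0 := by
  have e : ∀ x : ℝ, (fd a p x * s k x + f a p x * sd k x) *
        (fd a p x * s l x + f a p x * sd l x) =
      (cp p (a ^ 2 * (p * π) ^ 2 / 2) 0 (-(a ^ 2 * (p * π) ^ 2 / 2)) 0 x *
          Real.cos (((k : ℤ) - (l : ℤ) : ℤ) * π * x) -
        cp p (a ^ 2 * (p * π) ^ 2 / 2) 0 (-(a ^ 2 * (p * π) ^ 2 / 2)) 0 x *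
          Real.cos (((k : ℤ) + (l : ℤ) + 2 : ℤ) * π * x)) +
      (((((k : ℝ) + l + 2) * π) * (sp p (-(a * (p * π))) (-(a ^ 2 * (p * π) / 2)) x *
          Real.sin (((k : ℤ) + (l : ℤ) + 2 : ℤ) * π * x)) -
        (((k : ℝ) - l) * π) * (sp p (-(a * (p * π))) (-(a ^ 2 * (p * π) / 2)) x *
          Real.sin (((k : ℤ) - (l : ℤ) : ℤ) * π * x))) +
      (((k + 1) * π * ((l + 1) * π)) * (cp p (1 + a ^ 2 / 2) (2 * a) (a ^ 2 / 2) 0 x *
          Real.cos (((k : ℤ) - (l : ℤ) : ℤ) * π * x)) +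
        ((k + 1) * π * ((l + 1) * π)) * (cp p (1 + a ^ 2 / 2) (2 * a) (a ^ 2 / 2) 0 x *
          Real.cos (((k : ℤ) + (l : ℤ) + 2 : ℤ) * π * x)))) := by
    intro x
    rw [← sq_eq, ← fdsq_eq, ← ffd_eq]
    have h1 := ss_eq k l x
    have h2 := sdsd_eq k l x
    have h3 := ssd_eq k l x
    calc _ = (fd a p x) ^ 2 * (s k x * s l x) + ((f a p x * fd a p x) *
          (s k x * sd l x + sd k x * s l x) + (f a p x) ^ 2 * (sd k x * sd l x)) := by ring
      _ = _ := by rw [h1, h2, h3]; ring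
  simp only [e]
  have c1 : ∀ (b0 b1 b2 b3 : ℝ) (m : ℤ), IntervalIntegrable (fun x : ℝ =>
    cp p b0 b1 b2 b3 x * Real.cos (m * π * x)) volume 0 1 := fun b0 b1 b2 b3 m =>
    ((cp_cont _ _ _ _ _).mul (cosc _)).intervalIntegrable _ _
  have c2 : ∀ (g1 g2 : ℝ) (m : ℤ), IntervalIntegrable (fun x : ℝ =>
    sp p g1 g2 x * Real.sin (m * π * x)) volume 0 1 := fun g1 g2 m =>
    ((sp_cont _ _ _).mul (sinc _)).intervalIntegrable _ _
  rw [intervalIntegral.integral_add ((c1 _ _ _ _ _).sub (c1 _ _ _ _ _))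
    ((((c2 _ _ _).const_mul _).sub ((c2 _ _ _).const_mul _)).add
      (((c1 _ _ _ _ _).const_mul _).add ((c1 _ _ _ _ _).const_mul _))),
    intervalIntegral.integral_sub (c1 _ _ _ _ _) (c1 _ _ _ _ _),
    intervalIntegral.integral_add (((c2 _ _ _).const_mul _).sub ((c2 _ _ _).const_mul _))
      (((c1 _ _ _ _ _).const_mul _).add ((c1 _ _ _ _ _).const_mul _)),
    intervalIntegral.integral_sub ((c2 _ _ _).const_mul _) ((c2 _ _ _).const_mul _),
    intervalIntegral.integral_add ((c1 _ _ _ _ _).const_mul _) ((c1 _ _ _ _ _).const_mul _),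
    intervalIntegral.integral_const_mul, intervalIntegral.integral_const_mul,
    intervalIntegral.integral_const_mul, intervalIntegral.integral_const_mul,
    icp (by rw [abs_lt]; constructor <;> omega), icp (by rw [abs_lt]; constructor <;> omega),
    isp (by rw [abs_lt]; constructor <;> omega), isp (by rw [abs_lt]; constructor <;> omega),
    icp (by rw [abs_lt]; constructor <;> omega), icp (by rw [abs_lt]; constructor <;> omega)]
  rw [if_neg (by omega : ¬ ((k : ℤ) + (l : ℤ) + 2 = 0)),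
    if_neg (by omega : ¬ ((k : ℤ) + (l : ℤ) + 2 = 0))]
  by_cases h : k = l
  · subst h
    simp
    ring
  · rw [if_neg (by omega), if_neg (by omega), if_neg h]
    ring

end Pool.Agent.H15.WR
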