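import Pool.Agent.H15.WR.Unit

/-!
# Weyl remainder, part 4: a square of arbitrary size
-/

set_option autoImplicit false

open Set Filter Topology MeasureTheory
open scoped Real ContDiff
open Pool.Agent.Y264.QR Pool.Agent.Y262.QE

noncomputable section

namespace Pool.Agent.H15.WR

/-- the affine map from the square to the unit square -/
def Am (r : ℝ) (z : ℂ) : ℂ := (2 * r)⁻¹ • (z + (⟨r, r⟩ : ℂ))

lemma Am_deriv (r : ℝ) (z : ℂ) :
    HasFDerivAt (Am r) ((2 * r)⁻¹ • ContinuousLinearMap.id ℝ ℂ) z :=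
  ((hasFDerivAt_id z).add_const _).const_smul (2 * r)⁻¹

lemma Am_smooth (r : ℝ) : ContDiff ℝ 1 (Am r) := by
  unfold Am
  exact (contDiff_const (c := (2 * r)⁻¹)).smul (contDiff_id.add contDiff_const)

lemma Am_cont (r : ℝ) : Continuous (Am r) := (Am_smooth r).continuous

lemma Am_int {r : ℝ} (hr : 0 < r) (g : ℂ → ℝ) : ∫ z, g (Am r z) = (2 * r) ^ 2 * ∫ z, g z := by
  unfold Am
  rw [integral_add_right_eq_self (μ := (volume : Measure ℂ)) (fun z => g ((2 * r)⁻¹ • z))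
    (⟨r, r⟩ : ℂ), Measure.integral_comp_inv_smul, Complex.finrank_real_complex, smul_eq_mul,
    abs_of_pos (by positivity)]

lemma Am_mem {r : ℝ} (hr : 0 < r) {z : ℂ} (hz : Am r z ∈ Ioo 0 1 ×ℂ Ioo 0 1) :
    z ∈ Ioo (-r) r ×ℂ Ioo (-r) r := by
  rw [Complex.mem_reProdIm] at hz ⊢
  obtain ⟨⟨h1, h2⟩, h3, h4⟩ := hz
  have e1 : (Am r z).re = (2 * r)⁻¹ * (z.re + r) := by simp [Am]; ring
  have e2 : (Am r z).im = (2 * r)⁻¹ * (z.im + r) := by simp [Am]; ring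
  rw [e1] at h1 h2
  rw [e2] at h3 h4
  have h2r : 0 < 2 * r := by linarith
  rw [inv_mul_eq_div] at h1 h2 h3 h4
  rw [lt_div_iff₀ h2r] at h1 h3
  rw [div_lt_iff₀ h2r] at h2 h4
  refine ⟨⟨?_, ?_⟩, ?_, ?_⟩ <;> linarith

lemma Am_supp {r : ℝ} (hr : 0 < r) {g : ℂ → ℝ} (hg : tsupport g ⊆ Ioo 0 1 ×ℂ Ioo 0 1) :
    tsupport (fun z => g (Am r z)) ⊆ interior (Sq 0 r) := by
  refine subset_trans (fun z hz => ?_) (interior_maximal ?_ (IsOpen.reProdIm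
    (isOpen_Ioo (a := -r) (b := r)) (isOpen_Ioo (a := -r) (b := r))))
  · exact Am_mem hr (hg (tsupport_comp_subset_preimage g (f := Am r) (Am_cont r) hz))
  · intro z hz
    rw [Complex.mem_reProdIm] at hz
    simp only [Sq, mem_ofPred_eq, Complex.zero_re, Complex.zero_im, sub_zero]
    exact ⟨abs_le.2 ⟨hz.1.1.le, hz.1.2.le⟩, abs_le.2 ⟨hz.2.1.le, hz.2.2.le⟩⟩

/-- test functions on a square which are adapted to a pattern -/
theorem dirW {δ r Λ ε : ℝ} (hδ : 0 < δ) (hδ1 : δ ≤ 1) (hr : 0 < r)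
    (hR : 2 ≤ 4 * r ^ 2 * Λ / π ^ 2) (hε : 0 < ε) :
    ∃ (Q : ℂ → ℝ) (G : Fin (cD ((1 + δ ^ 2 / 20) * (4 * r ^ 2 * Λ / π ^ 2))) → ℂ → ℝ) (κ : ℝ),
      0 < κ ∧
      (ContDiff ℝ 1 Q ∧ (∀ z, |Q z| ≤ 1) ∧ tsupport Q ⊆ interior (Sq 0 r) ∧ |∫ z, Q z| ≤ ε) ∧
      (∀ m, ContDiff ℝ 1 (G m) ∧ tsupport (G m) ⊆ interior (Sq 0 r)) ∧
      ∀ c : Fin (cD ((1 + δ ^ 2 / 20) * (4 * r ^ 2 * Λ / π ^ 2))) → ℝ,
        κ * ∑ m, (c m) ^ 2 ≤ ∫ z, (1 + δ * Q z) * (∑ m, c m * G m z) ^ 2 ∧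
        ∫ z, ‖∑ m, c m • fderiv ℝ (G m) z‖ ^ 2 ≤
          Λ * ∫ z, (1 + δ * Q z) * (∑ m, c m * G m z) ^ 2 := by
  obtain ⟨Q, G, κ, hκ, ⟨q1, q2, q3, q4⟩, hG, hc⟩ := dirU hδ hδ1 hR
    (ε := ε / (2 * r) ^ 2) (by positivity)
  have hπ := Real.pi_pos
  refine ⟨fun z => Q (Am r z), fun m z => G m (Am r z), (2 * r) ^ 2 * κ, by positivity,
    ⟨q1.comp (Am_smooth r), fun z => q2 _, Am_supp hr q3, ?_⟩,
    fun m => ⟨(hG m).1.comp (Am_smooth r), Am_supp hr (hG m).2⟩, fun c => ?_⟩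
  · rw [Am_int hr, abs_mul, abs_of_pos (by positivity)]
    rwa [le_div_iff₀ (by positivity), mul_comm] at q4
  · obtain ⟨h1, h2⟩ := hc c
    have e1 : ∫ z, (1 + δ * Q (Am r z)) * (∑ m, c m * G m (Am r z)) ^ 2 =
        (2 * r) ^ 2 * ∫ z, (1 + δ * Q z) * (∑ m, c m * G m z) ^ 2 :=
      Am_int hr (fun z => (1 + δ * Q z) * (∑ m, c m * G m z) ^ 2)
    have hd : ∀ m z, fderiv ℝ (fun z => G m (Am r z)) z =
        (2 * r)⁻¹ • fderiv ℝ (G m) (Am r z) := by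
      intro m z
      have h3 : HasFDerivAt (G m) (fderiv ℝ (G m) (Am r z)) (Am r z) :=
        ((hG m).1.differentiable one_ne_zero _).hasFDerivAt
      have h4 := (h3.comp z (Am_deriv r z)).fderiv
      rw [Function.comp_def] at h4
      rw [h4]
      ext v
      all_goals simp
    have e2 : ∫ z, ‖∑ m, c m • fderiv ℝ (fun z => G m (Am r z)) z‖ ^ 2 =
        ∫ z, ‖∑ m, c m • fderiv ℝ (G m) z‖ ^ 2 := by
      have h5 : ∀ z, ‖∑ m, c m • fderiv ℝ (fun z => G m (Am r z)) z‖ ^ 2 =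
          ((2 * r) ^ 2)⁻¹ * (fun z => ‖∑ m, c m • fderiv ℝ (G m) z‖ ^ 2) (Am r z) := by
        intro z
        have h6 : ∑ m, c m • fderiv ℝ (fun z => G m (Am r z)) z =
            (2 * r)⁻¹ • ∑ m, c m • fderiv ℝ (G m) (Am r z) := by
          rw [Finset.smul_sum]
          refine Finset.sum_congr rfl fun m _ => ?_
          rw [hd, smul_comm]
        rw [h6, norm_smul, mul_pow, Real.norm_eq_abs, sq_abs, inv_pow]
      simp_rw [h5]
      rw [integral_const_mul, Am_int hr (fun z => ‖∑ m, c m • fderiv ℝ (G m) z‖ ^ 2), ← mul_assoc,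
        inv_mul_cancel₀ (by positivity), one_mul]
    rw [e1, e2]
    constructor
    · rw [mul_assoc]
      exact mul_le_mul_of_nonneg_left h1 (by positivity)
    · refine h2.trans (le_of_eq ?_)
      field_simp
      ring

end Pool.Agent.H15.WR
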