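import Pool.Agent.H15.WR.Surf
import Pool.Graph.R_pool_sql_team_seeded_3997aac3.Q233.CPC.Main

/-!
# Weyl remainder, part 6: small perturbations with many eigenvalues
-/

set_option autoImplicit false

open Set Filter Topology MeasureTheory
open scoped Real ContDiff
open Pool.Agent.Y264.QR Pool.Agent.Y262.QE Pool.Agent.Y268.QR Pool.Agent.Q233.CPC

noncomputable section

namespace Pool.Agent.H15.WR

/-- choice of the small parameter -/
theorem small' {A W0 W1 δ θ : ℝ} (hA : 0 < A) (hθ : (1 + θ) ^ 2 < 1 + δ ^ 2 / 20) :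
    ∃ η : ℝ, 0 < η ∧ η < 1 ∧ ∀ S : ℝ, (1 + η)⁻¹ * Real.exp (-η) * (A - W0 * η) ≤ S →
      (1 + θ) ^ 2 * (W1 * η + Real.exp η * (1 + η) ^ 2 * S) <
        (1 - η) * (1 + δ ^ 2 / 20) * (Real.exp (-η) / (1 + η) ^ 4) * S := by
  have hinv : ContinuousAt (fun η : ℝ => (1 + η)⁻¹) 0 :=
    ContinuousAt.inv₀ (by fun_prop) (by norm_num)
  have hdiv : ContinuousAt (fun η : ℝ => Real.exp (-η) / (1 + η) ^ 4) 0 :=
    ContinuousAt.div (by fun_prop) (by fun_prop) (by norm_num)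
  have c1 : ContinuousAt (fun η : ℝ => (1 - η) * (1 + δ ^ 2 / 20) *
      (Real.exp (-η) / (1 + η) ^ 4) - (1 + θ) ^ 2 * (Real.exp η * (1 + η) ^ 2)) 0 := by fun_prop
  have c2 : ContinuousAt (fun η : ℝ => (1 + η)⁻¹ * Real.exp (-η) * (A - W0 * η)) 0 := by fun_prop
  have c3 : ContinuousAt (fun η : ℝ => ((1 - η) * (1 + δ ^ 2 / 20) *
      (Real.exp (-η) / (1 + η) ^ 4) - (1 + θ) ^ 2 * (Real.exp η * (1 + η) ^ 2)) *
      ((1 + η)⁻¹ * Real.exp (-η) * (A - W0 * η)) - (1 + θ) ^ 2 * (W1 * η)) 0 := by fun_prop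
  have e1 : ∀ᶠ η : ℝ in 𝓝 0, 0 < (1 - η) * (1 + δ ^ 2 / 20) *
      (Real.exp (-η) / (1 + η) ^ 4) - (1 + θ) ^ 2 * (Real.exp η * (1 + η) ^ 2) :=
    c1.eventually (Ioi_mem_nhds (by simp; linarith))
  have e3 : ∀ᶠ η : ℝ in 𝓝 0, 0 < ((1 - η) * (1 + δ ^ 2 / 20) *
      (Real.exp (-η) / (1 + η) ^ 4) - (1 + θ) ^ 2 * (Real.exp η * (1 + η) ^ 2)) *
      ((1 + η)⁻¹ * Real.exp (-η) * (A - W0 * η)) - (1 + θ) ^ 2 * (W1 * η) :=
    c3.eventually (Ioi_mem_nhds (by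
      simp
      have : 0 < 1 + δ ^ 2 / 20 - (1 + θ) ^ 2 := by linarith
      positivity))
  have e4 : ∀ᶠ η : ℝ in 𝓝 0, η < 1 := Iio_mem_nhds one_pos
  obtain ⟨η, ⟨⟨h1, h2⟩, h3⟩, h4⟩ := ((((e1.and e3).and e4).filter_mono
    (nhdsWithin_le_nhds (s := Ioi 0))).and self_mem_nhdsWithin).exists
  refine ⟨η, h4, h3, fun S hS => ?_⟩
  have h5 := mul_le_mul_of_nonneg_left hS h1.le
  nlinarith

lemma exists_lower {n : ℕ} (τ : Fin n → ℝ) (h : ∀ k, 0 < τ k) : ∃ κ : ℝ, 0 < κ ∧ ∀ k, κ ≤ τ k := by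
  have h0 : 0 ≤ ∑ k, (τ k)⁻¹ := Finset.sum_nonneg fun k _ => (inv_pos.2 (h k)).le
  refine ⟨(1 + ∑ k, (τ k)⁻¹)⁻¹, by positivity, fun k => ?_⟩
  rw [inv_le_comm₀ (by positivity) (h k)]
  have h1 := Finset.single_le_sum (f := fun k => (τ k)⁻¹) (fun k _ => (inv_pos.2 (h k)).le)
    (Finset.mem_univ k)
  linarith

variable {M : Type} [MetricSpace M] [CompactSpace M] [MeasurableSpace M] [BorelSpace M]
  {μ : Measure M} {D : Data M}

/-- an upper bound of the area -/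
theorem area_le [IsFiniteMeasure μ] {η : ℝ} (hη : 0 < η) {V : M → ℝ} (hV : Continuous V)
    (hV0 : ∀ x, 0 ≤ V x) {B : ℝ} (hB0 : 0 ≤ B) (hB : ∀ x, V x ≤ B) {n : ℕ} (r : Fin n → ℝ)
    (Φ : Fin n → ℂ → M) (R : Set M) (hP : ∀ k, 0 < r k ∧ Pt D μ η (r k) (Φ k))
    (hR : IsClosed R)
    (hcov : ∀ x, x ∈ R ∨ ∃ k, x ∈ Φ k '' Sq 0 (r k)) (hμ : μ R < ENNReal.ofReal η)
    (L : Fin n → ℝ) (hL : ∀ k, ∫ y in Sq 0 (r k), V (Φ k y) ≤ L k) :
    ∫ x, V x ∂μ ≤ B * η + (1 + η) * ∑ k, L k := by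
  have hi : Integrable V μ := int_cont hV
  have hSm : ∀ k, MeasurableSet (Φ k '' Sq 0 (r k)) := fun k => (im_closed (hP k).2).measurableSet
  have h1 : ∫ x, V x ∂μ ≤ (∫ x in R, V x ∂μ) + ∑ k, ∫ x in Φ k '' Sq 0 (r k), V x ∂μ := by
    rw [← integral_indicator hR.measurableSet,
      Finset.sum_congr rfl fun k _ => (integral_indicator (hSm k)).symm,
      ← integral_finsetSum _ fun k _ => hi.indicator (hSm k),
      ← integral_add (hi.indicator hR.measurableSet)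
        (integrable_finsetSum _ fun k _ => hi.indicator (hSm k))]
    refine integral_mono hi ((hi.indicator hR.measurableSet).add
      (integrable_finsetSum _ fun k _ => hi.indicator (hSm k))) fun x => ?_
    simp only
    have n1 : 0 ≤ R.indicator V x := Set.indicator_nonneg (fun _ _ => hV0 _) _
    have n2 : ∀ k, 0 ≤ (Φ k '' Sq 0 (r k)).indicator V x := fun k =>
      Set.indicator_nonneg (fun _ _ => hV0 _) _
    rcases hcov x with hx | ⟨k, hx⟩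
    · have h2 : R.indicator V x = V x := Set.indicator_of_mem hx _
      have h3 : 0 ≤ ∑ k, (Φ k '' Sq 0 (r k)).indicator V x := Finset.sum_nonneg fun k _ => n2 k
      linarith
    · have h2 : (Φ k '' Sq 0 (r k)).indicator V x = V x := Set.indicator_of_mem hx _
      have h3 := Finset.single_le_sum (fun k _ => n2 k) (Finset.mem_univ k)
      linarith
  have h2 : ∫ x in R, V x ∂μ ≤ B * η := by
    calc ∫ x in R, V x ∂μ ≤ ∫ x in R, B ∂μ :=
          integral_mono hi.integrableOn (integrable_const _) hB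
      _ = μ.real R * B := by rw [setIntegral_const, smul_eq_mul]
      _ ≤ η * B := by
        refine mul_le_mul_of_nonneg_right ?_ hB0
        have := ENNReal.toReal_mono ENNReal.ofReal_ne_top hμ.le
        rwa [ENNReal.toReal_ofReal hη.le] at this
      _ = _ := by ring
  have h3 : ∀ k, ∫ x in Φ k '' Sq 0 (r k), V x ∂μ ≤ (1 + η) * L k := fun k =>
    (pt_int hη (hP k).2 (g := V) hV.measurable hV0 hB).1.trans
      (mul_le_mul_of_nonneg_left (hL k) (by linarith))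
  have h5 : ∑ k, ∫ x in Φ k '' Sq 0 (r k), V x ∂μ ≤ (1 + η) * ∑ k, L k := by
    rw [Finset.mul_sum]
    exact Finset.sum_le_sum fun k _ => h3 k
  linarith

/-- near every metric and for every large `Λ` there is a metric with too many eigenvalues below
`Λ` -/
theorem step [IsFiniteMeasure μ] [Nonempty M] (S : D.IsSurf μ) {i : HF D μ →L[ℝ] Lp ℝ 2 μ}
    {a : HF D μ →L[ℝ] HF D μ →L[ℝ] ℝ} {b : C(M, ℝ) → HF D μ →L[ℝ] HF D μ →L[ℝ] ℝ}
    (hi : ∀ v, i v = v.1.fst) (ha : ∀ u v, a u v = inner ℝ u.1.snd v.1.snd) (hB : IsB μ i b)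
    (φ₀ : C(M, ℝ)) {δ₀ : ℝ} (hδ₀ : 0 < δ₀) :
    ∃ θ : ℝ, 0 < θ ∧ ∀ᶠ Λ : ℝ in atTop, ∃ φ : C(M, ℝ), ‖φ - φ₀‖ < δ₀ ∧ ∃ j : ℕ,
      (1 + θ) ^ 2 * (ar μ φ * Λ / (4 * π)) < (j : ℝ) + 1 ∧ Ev a (b φ) j ≤ Λ := by
  have hπ := Real.pi_pos
  obtain ⟨δ, hδ⟩ : ∃ δ : ℝ, δ = min (1 / 2) (δ₀ / 4) := ⟨_, rfl⟩
  have hδ0 : 0 < δ := by rw [hδ]; positivity
  have hδ1 : δ ≤ 1 / 2 := by rw [hδ]; exact min_le_left _ _
  have hδ2 : δ ≤ δ₀ / 4 := by rw [hδ]; exact min_le_right _ _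
  obtain ⟨θ, hθ⟩ : ∃ θ : ℝ, θ = δ ^ 2 / 50 := ⟨_, rfl⟩
  have hθ0 : 0 < θ := by rw [hθ]; positivity
  have hθ1 : (1 + θ) ^ 2 < 1 + δ ^ 2 / 20 := by
    have h1 : δ ^ 2 ≤ 1 := by nlinarith
    have h2 : 0 < δ ^ 2 := by positivity
    rw [hθ]
    nlinarith
  have hA : 0 < ar μ φ₀ := area_pos S φ₀
  obtain ⟨η, hη, hη1, hsm⟩ := small' (W0 := Real.exp ‖φ₀‖) (W1 := Real.exp (‖φ₀‖ + 1)) hA hθ1
  obtain ⟨n, r, Φ, R, hP, hdis, hφ, hR, hcov, hμ⟩ := tCov M μ D S φ₀ η hη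
  have hfill := fill hη φ₀ r Φ R hP hφ hR hcov hμ
  have hlt := hsm _ hfill
  have hη' : 0 < 1 + η := by linarith
  obtain ⟨wt, hwt⟩ : ∃ wt : Fin n → ℝ, wt = fun k => Real.exp (φ₀ (Φ k 0)) := ⟨_, rfl⟩
  have hwt0 : ∀ k, 0 < wt k := fun k => by rw [hwt]; exact Real.exp_pos _
  obtain ⟨β, hβ⟩ : ∃ β : Fin n → ℝ, β = fun k => Real.exp (-η) * wt k := ⟨_, rfl⟩
  have hβ0 : ∀ k, 0 < β k := fun k => by
    rw [hβ]
    exact mul_pos (Real.exp_pos _) (hwt0 k)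
  -- lattice points
  have hl : ∀ᶠ R : ℝ in atTop, (1 - η) * (π / 4) * R ≤ (cD R : ℝ) := by
    have h1 : (1 - η) * (π / 4) < π / 4 := by nlinarith
    filter_upwards [Pool.Agent.Y252.QR.Lat.lat.2.eventually (Ioi_mem_nhds h1),
      eventually_gt_atTop 0] with R h2 h3
    have h4 : (1 - η) * (π / 4) < (cD R : ℝ) / R := h2
    rw [lt_div_iff₀ h3] at h4
    exact h4.le
  have hx : ∀ k, Tendsto (fun Λ : ℝ => 4 * (r k) ^ 2 * (Λ * β k / (1 + η) ^ 4) / π ^ 2)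
      atTop atTop := by
    intro k
    have h2 : (fun Λ : ℝ => 4 * (r k) ^ 2 * (Λ * β k / (1 + η) ^ 4) / π ^ 2) =
        fun Λ : ℝ => (4 * (r k) ^ 2 * (β k / (1 + η) ^ 4) / π ^ 2) * Λ := by
      funext Λ
      ring
    rw [h2]
    have h3 := (hP k).1
    have h4 := hβ0 k
    exact tendsto_id.const_mul_atTop (by positivity)
  have hl1 : ∀ k, ∀ᶠ Λ : ℝ in atTop, 2 ≤ 4 * (r k) ^ 2 * (Λ * β k / (1 + η) ^ 4) / π ^ 2 :=
    fun k => (hx k).eventually_ge_atTop 2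
  have hl2 : ∀ k, ∀ᶠ Λ : ℝ in atTop, (1 - η) * (π / 4) *
      ((1 + δ ^ 2 / 20) * (4 * (r k) ^ 2 * (Λ * β k / (1 + η) ^ 4) / π ^ 2)) ≤
        (cD ((1 + δ ^ 2 / 20) * (4 * (r k) ^ 2 * (Λ * β k / (1 + η) ^ 4) / π ^ 2)) : ℝ) :=
    fun k => ((hx k).const_mul_atTop (by positivity : 0 < 1 + δ ^ 2 / 20)).eventually hl
  refine ⟨θ, hθ0, ?_⟩
  filter_upwards [eventually_all.2 hl1, eventually_all.2 hl2, eventually_gt_atTop 0] with
    Λ hbig hcount hΛ0
  -- the functions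
  have hdir := fun k => dirW hδ0 (by linarith : δ ≤ 1) (hP k).1 (hbig k)
    (ε := 4 * (r k) ^ 2 * η) (by have := (hP k).1; positivity)
  choose Q f κ hκ hQ hf hfc using hdir
  have hQb : ∀ k z, |(1 + δ * Q k z) - 1| ≤ δ := by
    intro k z
    rw [add_sub_cancel_left, abs_mul, abs_of_pos hδ0]
    exact mul_le_of_le_one_right hδ0.le ((hQ k).2.1 z)
  have hQp : ∀ k z, 0 < 1 + δ * Q k z := by
    intro k z
    have := (abs_le.1 (hQb k z)).1
    linarith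
  have hlogs : ∀ k, ContDiff ℝ 1 fun z => Real.log (1 + δ * Q k z) := fun k =>
    (contDiff_const.add (contDiff_const.mul (hQ k).1)).log fun z => (hQp k z).ne'
  have hlogt : ∀ k, tsupport (fun z => Real.log (1 + δ * Q k z)) ⊆ interior (Sq 0 (r k)) := by
    intro k
    refine subset_trans (closure_mono fun z hz => ?_) (hQ k).2.2.1
    intro h0
    exact hz (by simp only; rw [h0, mul_zero, add_zero, Real.log_one])
  have hlifth := fun k => (hP k).2.lift _ (hlogs k) (hlogt k)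
  choose H hH using hlifth
  have hHc : ∀ k, Continuous (H k) := fun k =>
    ((Pool.Agent.Y708.QE.gradient M μ D S).1 _ (hH k).1).1
  obtain ⟨φ, hφd⟩ : ∃ φ : C(M, ℝ), φ = φ₀ + ∑ k, (⟨H k, hHc k⟩ : C(M, ℝ)) := ⟨_, rfl⟩
  have hφx : ∀ x, φ x = φ₀ x + ∑ k, H k x := by
    intro x
    rw [hφd, ContinuousMap.add_apply, ContinuousMap.sum_apply]
    rfl
  have hsq : ∀ k, ∀ y ∈ Sq 0 (r k), ∑ l, H l (Φ k y) = Real.log (1 + δ * Q k y) := by
    intro k y hy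
    rw [Finset.sum_eq_single k]
    · exact (hH k).2.1 y hy
    · intro l _ hlk
      refine (hH l).2.2 _ fun hc => ?_
      exact Set.disjoint_left.1 (hdis k l (Ne.symm hlk)) ⟨y, hy, rfl⟩ hc
    · intro h
      exact absurd (Finset.mem_univ k) h
  have hoff : ∀ x, (∀ k, x ∉ Φ k '' Sq 0 (r k)) → ∑ l, H l x = 0 := fun x hx =>
    Finset.sum_eq_zero fun l _ => (hH l).2.2 x (hx l)
  have hsb : ∀ x, |∑ l, H l x| ≤ 2 * δ := by
    intro x
    by_cases h : ∃ k, x ∈ Φ k '' Sq 0 (r k)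
    · obtain ⟨k, y, hy, rfl⟩ := h
      rw [hsq k y hy]
      exact log_near (hQb k y) hδ1
    · push Not at h
      rw [hoff x h, abs_zero]
      positivity
  have hdist : ‖φ - φ₀‖ < δ₀ := by
    refine lt_of_le_of_lt (b := 2 * δ) ?_ (by linarith)
    rw [ContinuousMap.norm_le _ (by positivity)]
    intro x
    rw [ContinuousMap.sub_apply, hφx, add_sub_cancel_left, Real.norm_eq_abs]
    exact hsb x
  have hφy : ∀ k, ∀ y ∈ Sq 0 (r k), Real.exp (φ (Φ k y)) =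
      Real.exp (φ₀ (Φ k y)) * (1 + δ * Q k y) := by
    intro k y hy
    rw [hφx, Real.exp_add, hsq k y hy, Real.exp_log (hQp k y)]
  have hWc : Continuous fun x => Real.exp (φ x) := Real.continuous_exp.comp φ.continuous
  -- the area
  have hint : ∀ k, ∫ y in Sq 0 (r k), Real.exp (φ (Φ k y)) ≤
      Real.exp η * wt k * (4 * (r k) ^ 2 * (1 + η)) := by
    intro k
    have h1 : ∫ y in Sq 0 (r k), Real.exp (φ (Φ k y)) ≤
        ∫ y in Sq 0 (r k), Real.exp η * wt k * (1 + δ * Q k y) := by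
      refine setIntegral_mono_on ?_ ?_ (meas_sq _) fun y hy => ?_
      · exact (hWc.comp_continuousOn (hP k).2.cont).integrableOn_compact
          (Pool.Agent.Y540.QE.compact_sq 0 (r k))
      · exact (continuous_const.mul (continuous_const.add (continuous_const.mul
          (hQ k).1.continuous))).continuousOn.integrableOn_compact
          (Pool.Agent.Y540.QE.compact_sq 0 (r k))
      · rw [hφy k y hy]
        refine mul_le_mul_of_nonneg_right ?_ (hQp k y).le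
        rw [hwt, ← Real.exp_add]
        have := (abs_le.1 (hφ k y hy)).2
        exact Real.exp_le_exp.2 (by linarith)
    refine h1.trans ?_
    rw [integral_const_mul]
    refine mul_le_mul_of_nonneg_left ?_ (mul_nonneg (Real.exp_pos _).le (hwt0 k).le)
    have hiQ : IntegrableOn (fun y => δ * Q k y) (Sq 0 (r k)) :=
      (continuous_const.mul (hQ k).1.continuous).continuousOn.integrableOn_compact
        (Pool.Agent.Y540.QE.compact_sq 0 (r k))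
    have hi1 : IntegrableOn (fun _ : ℂ => (1 : ℝ)) (Sq 0 (r k)) :=
      continuous_const.continuousOn.integrableOn_compact (Pool.Agent.Y540.QE.compact_sq 0 (r k))
    rw [integral_add hi1 hiQ, integral_const_mul, setIntegral_const, smul_eq_mul, mul_one,
      Measure.real, vol_sq (hP k).1, ENNReal.toReal_ofReal (by positivity)]
    have h2 : ∫ y in Sq 0 (r k), Q k y = ∫ y, Q k y :=
      setIntegral_eq_integral_of_forall_compl_eq_zero fun y hy =>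
        image_eq_zero_of_notMem_tsupport fun h => hy (interior_subset ((hQ k).2.2.1 h))
    rw [h2]
    have h3 := (abs_le.1 (hQ k).2.2.2).2
    have h4 : 0 ≤ 4 * (r k) ^ 2 * η := by positivity
    have h5 : δ * ∫ y, Q k y ≤ 4 * (r k) ^ 2 * η := by
      calc δ * ∫ y, Q k y ≤ δ * (4 * (r k) ^ 2 * η) := mul_le_mul_of_nonneg_left h3 hδ0.le
        _ ≤ 1 * (4 * (r k) ^ 2 * η) := mul_le_mul_of_nonneg_right (by linarith) h4
        _ = _ := one_mul _
    linarith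
  have hVB : ∀ x, Real.exp (φ x) ≤ Real.exp (‖φ₀‖ + 1) := by
    intro x
    refine Real.exp_le_exp.2 ?_
    rw [hφx]
    have h1 := φ₀.norm_coe_le_norm x
    rw [Real.norm_eq_abs] at h1
    have h2 := (abs_le.1 h1).2
    have h3 := (abs_le.1 (hsb x)).2
    linarith
  have harea := area_le hη hWc (fun x => (Real.exp_pos _).le) (Real.exp_pos _).le hVB r Φ R hP hR
    hcov hμ _ hint
  have harea' : ar μ φ ≤ Real.exp (‖φ₀‖ + 1) * η + Real.exp η * (1 + η) ^ 2 *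
      (4 * ∑ k, (r k) ^ 2 * Real.exp (φ₀ (Φ k 0))) := by
    refine harea.trans (le_of_eq ?_)
    congr 1
    rw [Finset.mul_sum, Finset.mul_sum, Finset.mul_sum]
    refine Finset.sum_congr rfl fun k _ => ?_
    rw [hwt]
    ring
  -- the lift
  have hlift := fun k m => (hP k).2.lift (f k m) (hf k m).1 (hf k m).2
  choose F hF using hlift
  obtain ⟨N, hN⟩ : ∃ N : Fin n → ℕ, N = fun k =>
    cD ((1 + δ ^ 2 / 20) * (4 * (r k) ^ 2 * (Λ * β k / (1 + η) ^ 4) / π ^ 2)) := ⟨_, rfl⟩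
  obtain ⟨κ', hκ'0, hκ'⟩ := exists_lower (fun k => β k * κ k / (1 + η)) fun k =>
    div_pos (mul_pos (hβ0 k) (hκ k)) hη'
  have key := fun c => multiW S hη hΛ0.le hWc (fun x => (Real.exp_pos _).le) r Φ hP hdis
    (fun k z => 1 + δ * Q k z)
    (fun k => continuous_const.add (continuous_const.mul (hQ k).1.continuous)) β
    (fun k y hy => by
      rw [hφy k y hy]
      refine mul_le_mul_of_nonneg_right ?_ (hQp k y).le
      have hβk : β k = Real.exp (-η) * Real.exp (φ₀ (Φ k 0)) := by rw [hβ, hwt]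
      rw [hβk, ← Real.exp_add]
      have := (abs_le.1 (hφ k y hy)).1
      exact Real.exp_le_exp.2 (by linarith))
    (fun k => cD ((1 + δ ^ 2 / 20) * (4 * (r k) ^ 2 * (Λ * β k / (1 + η) ^ 4) / π ^ 2)))
    f hf (κ := κ')
    (fun k c => by
      obtain ⟨h1, h2⟩ := hfc k c
      have h0 : 0 ≤ ∑ m, (c m) ^ 2 := Finset.sum_nonneg fun m _ => sq_nonneg _
      constructor
      · have h3 := hκ' k
        rw [le_div_iff₀ hη'] at h3
        calc κ' * (1 + η) * ∑ m, (c m) ^ 2 ≤ β k * κ k * ∑ m, (c m) ^ 2 :=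
              mul_le_mul_of_nonneg_right h3 h0
          _ = β k * (κ k * ∑ m, (c m) ^ 2) := by ring
          _ ≤ _ := mul_le_mul_of_nonneg_left h1 (hβ0 k).le
      · calc (1 + η) ^ 4 * ∫ z, ‖∑ m, c m • fderiv ℝ (f k m) z‖ ^ 2
            ≤ (1 + η) ^ 4 * (Λ * β k / (1 + η) ^ 4 *
              ∫ z, (1 + δ * Q k z) * (∑ m, c m * f k m z) ^ 2) :=
              mul_le_mul_of_nonneg_left h2 (by positivity)
          _ = _ := by
            field_simp)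
    F hF c
  -- counting
  have hcnt : (1 - η) * (1 + δ ^ 2 / 20) * (Real.exp (-η) / (1 + η) ^ 4) *
      (4 * ∑ k, (r k) ^ 2 * Real.exp (φ₀ (Φ k 0))) * (Λ / (4 * π)) ≤
      ((∑ k, cD ((1 + δ ^ 2 / 20) * (4 * (r k) ^ 2 * (Λ * β k / (1 + η) ^ 4) / π ^ 2)) : ℕ) :
        ℝ) := by
    push_cast
    rw [Finset.mul_sum, Finset.mul_sum, Finset.sum_mul]
    refine Finset.sum_le_sum fun k _ => ?_
    refine le_trans (le_of_eq ?_) (hcount k)
    rw [hβ, hwt]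
    field_simp
  have hfin : (1 + θ) ^ 2 * (ar μ φ * Λ / (4 * π)) <
      ((∑ k, cD ((1 + δ ^ 2 / 20) * (4 * (r k) ^ 2 * (Λ * β k / (1 + η) ^ 4) / π ^ 2)) : ℕ) :
        ℝ) := by
    refine lt_of_lt_of_le ?_ hcnt
    have hq : 0 < Λ / (4 * π) := by positivity
    calc (1 + θ) ^ 2 * (ar μ φ * Λ / (4 * π)) = (1 + θ) ^ 2 * ar μ φ * (Λ / (4 * π)) := by ring
      _ ≤ (1 + θ) ^ 2 * (Real.exp (‖φ₀‖ + 1) * η + Real.exp η * (1 + η) ^ 2 *
          (4 * ∑ k, (r k) ^ 2 * Real.exp (φ₀ (Φ k 0)))) * (Λ / (4 * π)) := by gcongr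
      _ < _ := mul_lt_mul_of_pos_right hlt hq
  obtain ⟨Nt, hNt⟩ : ∃ Nt : ℕ, Nt =
    ∑ k, cD ((1 + δ ^ 2 / 20) * (4 * (r k) ^ 2 * (Λ * β k / (1 + η) ^ 4) / π ^ 2)) := ⟨_, rfl⟩
  have hNt0 : 0 < Nt := by
    have h1 : 0 < (1 + θ) ^ 2 * (ar μ φ * Λ / (4 * π)) := by
      have : 0 < ar μ φ := area_pos S φ
      positivity
    have h2 := h1.trans hfin
    rw [← hNt] at h2
    exact_mod_cast h2
  refine ⟨φ, hdist, Nt - 1, ?_, ?_⟩
  · rw [← hNt] at hfin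
    have : ((Nt - 1 : ℕ) : ℝ) + 1 = Nt := by
      have h3 : Nt - 1 + 1 = Nt := by omega
      exact_mod_cast h3
    rw [this]
    exact hfin
  · have e : (Σ k : Fin n, Fin (cD ((1 + δ ^ 2 / 20) *
        (4 * (r k) ^ 2 * (Λ * β k / (1 + η) ^ 4) / π ^ 2)))) ≃
        Fin (∑ k, cD ((1 + δ ^ 2 / 20) * (4 * (r k) ^ 2 * (Λ * β k / (1 + η) ^ 4) / π ^ 2))) :=
      finSigmaFinEquiv
    refine ev_le S hi ha hB φ (fun i => F (e.symm i).1 (e.symm i).2) (fun i => (hF _ _).1) hκ'0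
      hΛ0.le ?_ (j := Nt - 1) (by omega)
    intro c
    have hFe : ∀ q, F (e.symm (e q)).1 (e.symm (e q)).2 = F q.1 q.2 := fun q =>
      congrArg (fun q' : (Σ k : Fin n, Fin (cD ((1 + δ ^ 2 / 20) *
        (4 * (r k) ^ 2 * (Λ * β k / (1 + η) ^ 4) / π ^ 2)))) => F q'.1 q'.2)
        (e.symm_apply_apply q)
    have s1 : ∀ x, ∑ i, c i * F (e.symm i).1 (e.symm i).2 x = ∑ q, c (e q) * F q.1 q.2 x := by
      intro x
      rw [← Equiv.sum_comp e]
      exact Finset.sum_congr rfl fun q _ => by rw [hFe]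
    have s2 : ∀ x, ∑ i, c i • D.gr (F (e.symm i).1 (e.symm i).2) x =
        ∑ q, c (e q) • D.gr (F q.1 q.2) x := by
      intro x
      rw [← Equiv.sum_comp e]
      exact Finset.sum_congr rfl fun q _ => by rw [hFe]
    have s3 : ∑ i, (c i) ^ 2 = ∑ q, (c (e q)) ^ 2 := (Equiv.sum_comp e fun i => (c i) ^ 2).symm
    have key' := key (fun q => c (e q))
    simp only [s1, s2, s3]
    exact key'

end Pool.Agent.H15.WR
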