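import Pool.Agent.H15.WR.Sqr

/-!
# Weyl remainder, part 5: test functions on a surface
-/

set_option autoImplicit false

open Set Filter Topology MeasureTheory
open scoped Real ContDiff
open Pool.Agent.Y264.QR Pool.Agent.Y262.QE Pool.Agent.Y268.QR

noncomputable section

namespace Pool.Agent.H15.WR

variable {M : Type} [MetricSpace M] [CompactSpace M] [MeasurableSpace M] [BorelSpace M]
  {μ : Measure M} {D : Data M}

/-- one square -/
theorem one_sq [IsFiniteMeasure μ] (hD : D.IsSurf μ) {η r : ℝ} (hη : 0 < η)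
    {Φ : ℂ → M} (hP : Pt D μ η r Φ) {ι : Type} [Fintype ι] (f : ι → ℂ → ℝ)
    (hf : ∀ k, ContDiff ℝ 1 (f k) ∧ tsupport (f k) ⊆ interior (Sq 0 r)) (F : ι → M → ℝ)
    (hF : ∀ k, D.C1 (F k) ∧ (∀ y ∈ Sq 0 r, F k (Φ y) = f k y) ∧ ∀ x, x ∉ Φ '' Sq 0 r → F k x = 0)
    (c : ι → ℝ) {W : M → ℝ} (hW : Continuous W) (hW0 : ∀ x, 0 ≤ W x) {w : ℂ → ℝ}
    (hw : Continuous w) {β : ℝ} (h : ∀ y ∈ Sq 0 r, β * w y ≤ W (Φ y)) :
    β * ∫ z, w z * (∑ k, c k * f k z) ^ 2 ≤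
        (1 + η) * ∫ x in Φ '' Sq 0 r, W x * (∑ k, c k * F k x) ^ 2 ∂μ ∧
      ∫ x in Φ '' Sq 0 r, ‖∑ k, c k • D.gr (F k) x‖ ^ 2 ∂μ ≤
        (1 + η) ^ 3 * ∫ z, ‖∑ k, c k • fderiv ℝ (f k) z‖ ^ 2 := by
  have hη' : (0 : ℝ) ≤ 1 + η := by linarith
  obtain ⟨hGC, hGg⟩ := sum_C1 hD Finset.univ c F fun k => (hF k).1
  have hGcont : Continuous fun x => ∑ k, c k * F k x :=
    ((Pool.Agent.Y708.QE.gradient M μ D hD).1 _ hGC).1
  obtain ⟨-, hgm, Cg, hCg⟩ := (Pool.Agent.Y708.QE.gradient M μ D hD).1 _ hGC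
  -- the function
  have hz : ∀ k, ∀ z, z ∉ Sq 0 r → f k z = 0 := by
    intro k z hz
    exact image_eq_zero_of_notMem_tsupport fun h => hz (interior_subset ((hf k).2 h))
  have hzd : ∀ k, ∀ z, z ∉ Sq 0 r → fderiv ℝ (f k) z = 0 := by
    intro k z hz
    by_contra h
    exact hz (interior_subset ((hf k).2 (support_fderiv_subset ℝ h)))
  have hfc : Continuous fun z => ∑ k, c k * f k z :=
    continuous_finsetSum _ fun k _ => continuous_const.mul (hf k).1.continuous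
  have e1 : ∫ z, w z * (∑ k, c k * f k z) ^ 2 = ∫ y in Sq 0 r, w y * (∑ k, c k * f k y) ^ 2 := by
    rw [← setIntegral_eq_integral_of_forall_compl_eq_zero (s := Sq 0 r)
      (f := fun z => w z * (∑ k, c k * f k z) ^ 2)]
    intro z hz'
    rw [Finset.sum_eq_zero fun k _ => by rw [hz k z hz', mul_zero]]
    simp
  have hWF : Continuous fun x => W x * (∑ k, c k * F k x) ^ 2 := hW.mul (hGcont.pow 2)
  obtain ⟨B, hB⟩ : ∃ B : ℝ, ∀ x : M, W x * (∑ k, c k * F k x) ^ 2 ≤ B := by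
    obtain ⟨B, hB⟩ := (isCompact_univ (X := M)).bddAbove_image
      (f := fun x => W x * (∑ k, c k * F k x) ^ 2) hWF.continuousOn
    exact ⟨B, fun x => hB ⟨x, mem_univ x, rfl⟩⟩
  have i1 := (pt_int hη hP (g := fun x => W x * (∑ k, c k * F k x) ^ 2) hWF.measurable
    (fun x => mul_nonneg (hW0 x) (sq_nonneg _)) hB).2
  constructor
  · refine le_trans ?_ i1
    rw [e1, ← integral_const_mul]
    have hcomp : IntegrableOn (fun y => W (Φ y) * (∑ k, c k * F k (Φ y)) ^ 2) (Sq 0 r) := by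
      refine ContinuousOn.integrableOn_compact (Pool.Agent.Y540.QE.compact_sq 0 r) ?_
      exact hWF.comp_continuousOn hP.cont
    refine setIntegral_mono_on
      (((hw.mul (hfc.pow 2)).continuousOn.integrableOn_compact
        (Pool.Agent.Y540.QE.compact_sq 0 r)).const_mul β) hcomp (meas_sq r) fun y hy => ?_
    have e2 : ∑ k, c k * F k (Φ y) = ∑ k, c k * f k y :=
      Finset.sum_congr rfl fun k _ => by rw [(hF k).2.1 y hy]
    rw [e2, ← mul_assoc]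
    exact mul_le_mul_of_nonneg_right (h y hy) (sq_nonneg _)
  -- the gradient
  have e2 : ∫ z, ‖∑ k, c k • fderiv ℝ (f k) z‖ ^ 2 =
      ∫ y in Sq 0 r, ‖∑ k, c k • fderiv ℝ (f k) y‖ ^ 2 := by
    rw [← setIntegral_eq_integral_of_forall_compl_eq_zero (s := Sq 0 r)
      (f := fun z => ‖∑ k, c k • fderiv ℝ (f k) z‖ ^ 2)]
    intro z hz'
    rw [Finset.sum_eq_zero fun k _ => by rw [hzd k z hz', smul_zero]]
    simp
  have hCg' : ∀ x, ‖D.gr (fun x => ∑ k, c k * F k x) x‖ ^ 2 ≤ Cg ^ 2 := fun x =>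
    pow_le_pow_left₀ (norm_nonneg _) (hCg x) 2
  have i2 := (pt_int hη hP (g := fun x => ‖D.gr (fun x => ∑ k, c k * F k x) x‖ ^ 2)
    (hgm.norm.pow_const 2) (fun x => sq_nonneg _) hCg').1
  have hcd : Continuous fun y => ‖∑ k, c k • fderiv ℝ (f k) y‖ ^ 2 := by
    refine (Continuous.norm ?_).pow 2
    exact continuous_finsetSum _ fun k _ =>
      (continuous_const_smul (c k)).comp ((hf k).1.continuous_fderiv one_ne_zero)
  have hae : ∀ᵐ y ∂(volume.restrict (Sq 0 r)), y ∈ interior (Sq 0 r) := by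
    rw [ae_restrict_iff' (meas_sq r)]
    filter_upwards [compl_mem_ae_iff.2 (null_bdr r)] with y hy hs
    by_contra h
    exact hy ⟨hs, h⟩
  obtain ⟨O, hO, hSO, hgrad⟩ := hP.grad
  have i3 : ∫ y in Sq 0 r, ‖D.gr (fun x => ∑ k, c k * F k x) (Φ y)‖ ^ 2 ≤
      ∫ y in Sq 0 r, (1 + η) ^ 2 * ‖∑ k, c k • fderiv ℝ (f k) y‖ ^ 2 := by
    refine integral_mono_of_nonneg (Eventually.of_forall fun y => sq_nonneg _)
      ((hcd.continuousOn.integrableOn_compact (Pool.Agent.Y540.QE.compact_sq 0 r)).const_mul _) ?_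
    filter_upwards [hae] with y hy
    have hy' : y ∈ Sq 0 r := interior_subset hy
    have h3 := ((hgrad _ hGC).2 y (hSO hy')).2
    have h4 : (fun y => ∑ k, c k * F k (Φ y)) =ᶠ[𝓝 y] fun y => ∑ k, c k * f k y := by
      filter_upwards [isOpen_interior.mem_nhds hy] with y' hy'
      exact Finset.sum_congr rfl fun k _ => by rw [(hF k).2.1 y' (interior_subset hy')]
    have h5 : fderiv ℝ (fun y => ∑ k, c k * f k y) y = ∑ k, c k • fderiv ℝ (f k) y := by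
      have hd : ∀ k, DifferentiableAt ℝ (f k) y := fun k =>
        (hf k).1.differentiable one_ne_zero y
      have h6 : HasFDerivAt (fun y => ∑ k, c k * f k y) (∑ k, c k • fderiv ℝ (f k) y) y :=
        HasFDerivAt.fun_sum fun k _ => (hd k).hasFDerivAt.const_mul (c k)
      exact h6.fderiv
    rw [h4.fderiv_eq, h5] at h3
    calc ‖D.gr (fun x => ∑ k, c k * F k x) (Φ y)‖ ^ 2
        ≤ ((1 + η) * ‖∑ k, c k • fderiv ℝ (f k) y‖) ^ 2 :=
          pow_le_pow_left₀ (norm_nonneg _) h3 2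
      _ = _ := by ring
  have e3 : ∫ x in Φ '' Sq 0 r, ‖∑ k, c k • D.gr (F k) x‖ ^ 2 ∂μ =
      ∫ x in Φ '' Sq 0 r, ‖D.gr (fun x => ∑ k, c k * F k x) x‖ ^ 2 ∂μ := by
    refine integral_congr_ae (Eventually.of_forall fun x => ?_)
    simp only
    rw [hGg x]
  rw [integral_const_mul, ← e2] at i3
  rw [e3]
  calc _ ≤ (1 + η) * ∫ y in Sq 0 r, ‖D.gr (fun x => ∑ k, c k * F k x) (Φ y)‖ ^ 2 := i2
    _ ≤ (1 + η) * ((1 + η) ^ 2 * ∫ z, ‖∑ k, c k • fderiv ℝ (f k) z‖ ^ 2) :=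
        mul_le_mul_of_nonneg_left i3 hη'
    _ = _ := by ring

/-- disjoint squares -/
theorem multiW [IsFiniteMeasure μ] (hD : D.IsSurf μ) {η Λ : ℝ} (hη : 0 < η) (hΛ : 0 ≤ Λ)
    {W : M → ℝ} (hWc : Continuous W) (hW0 : ∀ x, 0 ≤ W x) {n : ℕ} (r : Fin n → ℝ)
    (Φ : Fin n → ℂ → M) (hP : ∀ k, 0 < r k ∧ Pt D μ η (r k) (Φ k))
    (hdis : ∀ k l, k ≠ l → Disjoint (Φ k '' Sq 0 (r k)) (Φ l '' Sq 0 (r l)))
    (w : Fin n → ℂ → ℝ) (hw : ∀ k, Continuous (w k)) (β : Fin n → ℝ)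
    (hW : ∀ k, ∀ y ∈ Sq 0 (r k), β k * w k y ≤ W (Φ k y))
    (N : Fin n → ℕ) (f : ∀ k, Fin (N k) → ℂ → ℝ)
    (hf : ∀ k m, ContDiff ℝ 1 (f k m) ∧ tsupport (f k m) ⊆ interior (Sq 0 (r k))) {κ : ℝ}
    (hdir : ∀ k (c : Fin (N k) → ℝ),
      κ * (1 + η) * ∑ m, (c m) ^ 2 ≤ β k * ∫ z, w k z * (∑ m, c m * f k m z) ^ 2 ∧
      (1 + η) ^ 4 * ∫ z, ‖∑ m, c m • fderiv ℝ (f k m) z‖ ^ 2 ≤
        Λ * (β k * ∫ z, w k z * (∑ m, c m * f k m z) ^ 2))
    (F : ∀ k, Fin (N k) → M → ℝ)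
    (hF : ∀ k m, D.C1 (F k m) ∧ (∀ y ∈ Sq 0 (r k), F k m (Φ k y) = f k m y) ∧
      ∀ x, x ∉ Φ k '' Sq 0 (r k) → F k m x = 0) (c : (Σ k : Fin n, Fin (N k)) → ℝ) :
    κ * ∑ q, (c q) ^ 2 ≤
        ∫ x, W x * (∑ q : (Σ k : Fin n, Fin (N k)), c q * F q.1 q.2 x) ^ 2 ∂μ ∧
      ∫ x, ‖∑ q : (Σ k : Fin n, Fin (N k)), c q • D.gr (F q.1 q.2) x‖ ^ 2 ∂μ ≤
        Λ * ∫ x, W x * (∑ q : (Σ k : Fin n, Fin (N k)), c q * F q.1 q.2 x) ^ 2 ∂μ := by
  have hη' : (0 : ℝ) < 1 + η := by linarith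
  -- the pieces
  set G : Fin n → M → ℝ := fun k x => ∑ m, c ⟨k, m⟩ * F k m x with hG
  set V : Fin n → M → ℂ := fun k x => ∑ m, c ⟨k, m⟩ • D.gr (F k m) x with hV
  have hGC : ∀ k, D.C1 (G k) ∧ ∀ x, D.gr (G k) x = V k x := fun k =>
    sum_C1 hD Finset.univ (fun m => c ⟨k, m⟩) (F k) fun m => (hF k m).1
  have hGcont : ∀ k, Continuous (G k) := fun k =>
    ((Pool.Agent.Y708.QE.gradient M μ D hD).1 _ (hGC k).1).1
  have hG0 : ∀ k x, x ∉ Φ k '' Sq 0 (r k) → G k x = 0 := fun k x hx =>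
    Finset.sum_eq_zero fun m _ => by rw [(hF k m).2.2 x hx, mul_zero]
  have hV0 : ∀ k x, x ∉ Φ k '' Sq 0 (r k) → V k x = 0 := by
    intro k x hx
    rw [← (hGC k).2 x]
    exact gr_off hD (im_closed (hP k).2) (hG0 k) hx
  have sG : ∀ x, ∑ q : (Σ k : Fin n, Fin (N k)), c q * F q.1 q.2 x = ∑ k, G k x := fun x => by
    rw [Fintype.sum_sigma]
  have sV : ∀ x, ∑ q : (Σ k : Fin n, Fin (N k)), c q • D.gr (F q.1 q.2) x = ∑ k, V k x :=
    fun x => by rw [Fintype.sum_sigma]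
  have hdj : ∀ x (i j : Fin n), i ≠ j → x ∉ Φ i '' Sq 0 (r i) ∨ x ∉ Φ j '' Sq 0 (r j) := by
    intro x i j hij
    by_contra h
    push Not at h
    exact (Set.disjoint_left.1 (hdis i j hij)) h.1 h.2
  have iG : ∀ k, Integrable (fun x => W x * (G k x) ^ 2) μ := fun k =>
    int_cont (hWc.mul ((hGcont k).pow 2))
  have iV : ∀ k, Integrable (fun x => ‖V k x‖ ^ 2) μ := by
    intro k
    obtain ⟨-, hm, C, hC⟩ := (Pool.Agent.Y708.QE.gradient M μ D hD).1 _ (hGC k).1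
    have e : (fun x => ‖V k x‖ ^ 2) = fun x => ‖D.gr (G k) x‖ ^ 2 := by
      funext x
      rw [(hGC k).2 x]
    rw [e]
    refine Integrable.of_bound (hm.norm.pow_const 2).aestronglyMeasurable (C ^ 2)
      (Eventually.of_forall fun x => ?_)
    rw [Real.norm_eq_abs, abs_of_nonneg (sq_nonneg _)]
    exact pow_le_pow_left₀ (norm_nonneg _) (hC x) 2
  have tG : ∫ x, W x * (∑ q : (Σ k : Fin n, Fin (N k)), c q * F q.1 q.2 x) ^ 2 ∂μ =
      ∑ k, ∫ x in Φ k '' Sq 0 (r k), W x * (G k x) ^ 2 ∂μ := by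
    have e : ∀ k, ∫ x in Φ k '' Sq 0 (r k), W x * (G k x) ^ 2 ∂μ =
        ∫ x, W x * (G k x) ^ 2 ∂μ := fun k =>
      setIntegral_eq_integral_of_forall_compl_eq_zero fun x hx => by
        rw [hG0 k x hx]
        simp
    rw [Finset.sum_congr rfl fun k _ => e k, ← integral_finsetSum _ fun k _ => iG k]
    refine integral_congr_ae (Eventually.of_forall fun x => ?_)
    simp only
    rw [sG x, sum_one (fun k => G k x) (fun t => t ^ 2) (by simp) fun i j hij =>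
      (hdj x i j hij).imp (hG0 i x) (hG0 j x), Finset.mul_sum]
  have tV : ∫ x, ‖∑ q : (Σ k : Fin n, Fin (N k)), c q • D.gr (F q.1 q.2) x‖ ^ 2 ∂μ =
      ∑ k, ∫ x in Φ k '' Sq 0 (r k), ‖V k x‖ ^ 2 ∂μ := by
    have e : ∀ k, ∫ x in Φ k '' Sq 0 (r k), ‖V k x‖ ^ 2 ∂μ = ∫ x, ‖V k x‖ ^ 2 ∂μ := fun k =>
      setIntegral_eq_integral_of_forall_compl_eq_zero fun x hx => by
        rw [hV0 k x hx]
        simp
    rw [Finset.sum_congr rfl fun k _ => e k, ← integral_finsetSum _ fun k _ => iV k]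
    refine integral_congr_ae (Eventually.of_forall fun x => ?_)
    simp only
    rw [sV x, sum_one (fun k => V k x) (fun t => ‖t‖ ^ 2) (by simp) fun i j hij =>
      (hdj x i j hij).imp (hV0 i x) (hV0 j x)]
  have one := fun k => one_sq hD hη (hP k).2 (f k) (hf k) (F k) (hF k) (fun m => c ⟨k, m⟩) hWc hW0
    (hw k) (hW k)
  rw [tG, tV]
  constructor
  · rw [Fintype.sum_sigma, Finset.mul_sum]
    refine Finset.sum_le_sum fun k _ => ?_
    have h1 := (hdir k fun m => c ⟨k, m⟩).1.trans (one k).1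
    have h2 : (1 + η) * (κ * ∑ m, (c ⟨k, m⟩) ^ 2) ≤
        (1 + η) * ∫ x in Φ k '' Sq 0 (r k), W x * (G k x) ^ 2 ∂μ := by
      refine le_trans (le_of_eq ?_) h1
      ring
    exact le_of_mul_le_mul_left h2 hη'
  · rw [Finset.mul_sum]
    refine Finset.sum_le_sum fun k _ => ?_
    have h1 := (hdir k fun m => c ⟨k, m⟩).2
    have h2 := (one k).1
    have h3 := (one k).2
    have h4 : (1 + η) * ∫ x in Φ k '' Sq 0 (r k), ‖V k x‖ ^ 2 ∂μ ≤
        (1 + η) * (Λ * ∫ x in Φ k '' Sq 0 (r k), W x * (G k x) ^ 2 ∂μ) := by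
      calc (1 + η) * ∫ x in Φ k '' Sq 0 (r k), ‖V k x‖ ^ 2 ∂μ
          ≤ (1 + η) * ((1 + η) ^ 3 *
            ∫ z, ‖∑ m, c ⟨k, m⟩ • fderiv ℝ (f k m) z‖ ^ 2) :=
            mul_le_mul_of_nonneg_left h3 hη'.le
        _ = (1 + η) ^ 4 * ∫ z, ‖∑ m, c ⟨k, m⟩ • fderiv ℝ (f k m) z‖ ^ 2 := by ring
        _ ≤ Λ * (β k * ∫ z, w k z * (∑ m, c ⟨k, m⟩ * f k m z) ^ 2) := h1
        _ ≤ Λ * ((1 + η) * ∫ x in Φ k '' Sq 0 (r k), W x * (G k x) ^ 2 ∂μ) :=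
            mul_le_mul_of_nonneg_left h2 hΛ
        _ = _ := by ring
    exact le_of_mul_le_mul_left h4 hη'

/-- test functions and eigenvalues -/
theorem ev_le (hD : D.IsSurf μ) {i : HF D μ →L[ℝ] Lp ℝ 2 μ}
    {a : HF D μ →L[ℝ] HF D μ →L[ℝ] ℝ} {b : C(M, ℝ) → HF D μ →L[ℝ] HF D μ →L[ℝ] ℝ}
    (hi : ∀ v, i v = v.1.fst) (ha : ∀ u v, a u v = inner ℝ u.1.snd v.1.snd) (hB : IsB μ i b)
    (φ : C(M, ℝ)) {N : ℕ} (F : Fin N → M → ℝ) (hF : ∀ k, D.C1 (F k)) {κ Λ : ℝ} (hκ : 0 < κ)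
    (hΛ : 0 ≤ Λ)
    (h : ∀ c : Fin N → ℝ,
      κ * ∑ k, (c k) ^ 2 ≤ ∫ x, Real.exp (φ x) * (∑ k, c k * F k x) ^ 2 ∂μ ∧
      ∫ x, ‖∑ k, c k • D.gr (F k) x‖ ^ 2 ∂μ ≤
        Λ * ∫ x, Real.exp (φ x) * (∑ k, c k * F k x) ^ 2 ∂μ) {j : ℕ} (hj : j + 1 ≤ N) :
    Ev a (b φ) j ≤ Λ := by
  obtain ⟨hDen1, -⟩ := tDenF M μ D hD
  have hbv : ∀ (v : HF D μ) (F : M → ℝ), (v.1.fst : M → ℝ) =ᵐ[μ] F →
      b φ v v = ∫ x, Real.exp (φ x) * (F x) ^ 2 ∂μ := by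
    intro v F hF
    rw [hB φ v v, hi v]
    refine integral_congr_ae ?_
    filter_upwards [hF] with x hx
    rw [hx, pow_two]
  have hav : ∀ (v : HF D μ) (G : M → ℂ), (v.1.snd : M → ℂ) =ᵐ[μ] G →
      a v v = ∫ x, ‖G x‖ ^ 2 ∂μ := by
    intro v G hG
    rw [ha v v, L2.inner_def]
    refine integral_congr_ae ?_
    filter_upwards [hG] with x hx
    rw [hx, real_inner_self_eq_norm_sq]
  choose v hvm hv1 hv2 using fun k => hDen1 (F k) (hF k)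
  let w : Fin N → HF D μ := fun k => ⟨v k, hvm k⟩
  have hfst : ∀ c : Fin N → ℝ, ((∑ k, c k • w k : HF D μ).1.fst : M → ℝ) =ᵐ[μ]
      fun x => ∑ k, c k * F k x := by
    intro c
    have h1 : (∑ k, c k • w k : HF D μ).1.fst = ∑ k, c k • (v k).fst := by
      rw [← hi, map_sum]
      refine Finset.sum_congr rfl fun k _ => ?_
      rw [map_smul, hi]
    rw [h1]
    have h2 := Pool.Agent.Y378.QR.coe_sum c (fun k => (v k).fst) F hv1 Finset.univ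
    refine h2.trans (Eventually.of_forall fun x => ?_)
    simp only [smul_eq_mul]
  have hsnd : ∀ c : Fin N → ℝ, ((∑ k, c k • w k : HF D μ).1.snd : M → ℂ) =ᵐ[μ]
      fun x => ∑ k, c k • D.gr (F k) x := by
    intro c
    have h1 : (∑ k, c k • w k : HF D μ).1.snd = ∑ k, c k • (v k).snd := by
      have e1 : (∑ k, c k • w k : HF D μ).1 = ∑ k, c k • v k := by
        rw [AddSubmonoidClass.coe_finsetSum]
        rfl
      rw [e1]
      change (WithLp.sndₗ (𝕜 := ℝ) 2 (Lp ℝ 2 μ) (Lp ℂ 2 μ)) (∑ k, c k • v k) = _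
      rw [map_sum]
      refine Finset.sum_congr rfl fun k _ => ?_
      rw [map_smul]
      rfl
    rw [h1]
    exact Pool.Agent.Y378.QR.coe_sum c (fun k => (v k).snd) (fun k => D.gr (F k)) hv2 Finset.univ
  refine Pool.Agent.Y378.QR.ev_upper w hκ hΛ ?_ ?_ hj
  · intro c
    rw [hbv _ _ (hfst c)]
    exact (h c).1
  · intro c
    rw [hbv _ _ (hfst c), hav _ _ (hsnd c)]
    exact (h c).2

end Pool.Agent.H15.WR
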