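import Pool.Agent.H15.WR.Appr

/-!
# Weyl remainder, part 3: the unit square
-/

set_option autoImplicit false

open Set Filter Topology MeasureTheory
open scoped Real ContDiff
open Pool.Agent.Y252.QR.Dir1 Pool.Agent.Y390.QR.DIR Pool.Agent.Y264.QR

noncomputable section

namespace Pool.Agent.H15.WR

lemma tsub {g : ℝ → ℝ} {b : ℝ} (hb : 0 < b) (h : Function.support g ⊆ Icc b (1 - b)) :
    tsupport g ⊆ Ioo 0 1 :=
  (closure_minimal h isClosed_Icc).trans fun x hx => ⟨by linarith [hx.1], by linarith [hx.2]⟩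

lemma cc_of {g : ℝ → ℝ} (hg : Continuous g) (h : tsupport g ⊆ Ioo 0 1) : CC g :=
  ⟨hg, isCompact_Icc.of_isClosed_subset (isClosed_tsupport _) (h.trans Ioo_subset_Icc_self)⟩

lemma gg_supp {n : ℕ} (k : ℕ) (hn : 0 < n) (hJ : J n 1 ≠ 0) :
    Function.support (gg n k) ⊆ Icc (1 / (n : ℝ)) (1 - 1 / (n : ℝ)) := by
  have hn' : (0 : ℝ) < n := by exact_mod_cast hn
  intro x hx
  by_contra hne
  refine hx (gg_zero n k x hJ ?_)
  rw [mem_Icc, not_and_or, not_le, not_le] at hne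
  rcases hne with hne | hne
  · left
    rw [lt_div_iff₀ hn'] at hne
    linarith
  · right
    have h : 1 - x < 1 / (n : ℝ) := by linarith
    rw [lt_div_iff₀ hn'] at h
    linarith

lemma X_supp (a : ℝ) (p : ℤ) {n : ℕ} (k : ℕ) (hn : 0 < n) (hJ : J n 1 ≠ 0) :
    Function.support (X a p n k) ⊆ Icc (1 / (n : ℝ)) (1 - 1 / (n : ℝ)) := by
  refine subset_trans (fun x hx => ?_) (gg_supp k hn hJ)
  intro h
  exact hx (by unfold X; rw [h, mul_zero])

lemma tsupport2 {g h : ℝ → ℝ} (hg : tsupport g ⊆ Ioo 0 1) (hh : tsupport h ⊆ Ioo 0 1) :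
    tsupport (fun z : ℂ => g z.re * h z.im) ⊆ Ioo 0 1 ×ℂ Ioo 0 1 := by
  intro z hz
  rw [Complex.mem_reProdIm]
  constructor
  · have h2 := tsupport_mul_subset_left (f := fun z : ℂ => g z.re)
      (g := fun z : ℂ => h z.im) hz
    exact hg (tsupport_comp_subset_preimage g (f := Complex.re) Complex.continuous_re h2)
  · have h2 := tsupport_mul_subset_right (f := fun z : ℂ => g z.re)
      (g := fun z : ℂ => h z.im) hz
    exact hh (tsupport_comp_subset_preimage h (f := Complex.im) Complex.continuous_im h2)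

lemma quadW {ι : Type} [Fintype ι] (c : ι → ℝ) (w : ℂ → ℝ) (w1 : ℝ → ℝ) (hw1 : Continuous w1)
    (u v : ι → ℝ → ℝ) (hu : ∀ m, CC (u m)) (hv : ∀ m, CC (v m))
    (hw : ∀ m (z : ℂ), v m z.im ≠ 0 → w z = w1 z.re) :
    ∫ z : ℂ, w z * (∑ m, c m * (u m z.re * v m z.im)) ^ 2 =
      ∑ m, ∑ m', c m * c m' * ((∫ x, w1 x * (u m x * u m' x)) * ∫ x, v m x * v m' x) := by
  have h1 : ∀ z : ℂ, w z * (∑ m, c m * (u m z.re * v m z.im)) ^ 2 =
      ∑ m, ∑ m', c m * c m' *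
        ((fun x => w1 x * (u m x * u m' x)) z.re * (fun x => v m x * v m' x) z.im) := by
    intro z
    rw [pow_two, Finset.sum_mul_sum, Finset.mul_sum]
    refine Finset.sum_congr rfl fun m _ => ?_
    rw [Finset.mul_sum]
    refine Finset.sum_congr rfl fun m' _ => ?_
    by_cases h : v m z.im = 0
    · simp only [h]
      ring
    · rw [hw m z h]
      ring
  have hc : ∀ m m', CC fun x => w1 x * (u m x * u m' x) := fun m m' =>
    ⟨hw1.mul ((hu m).mul (hu m')).1, ((hu m).mul (hu m')).2.mul_left⟩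
  have hI : ∀ m m', Integrable fun z : ℂ => c m * c m' *
      ((fun x => w1 x * (u m x * u m' x)) z.re * (fun x => v m x * v m' x) z.im) :=
    fun m m' => (intg (hc m m') ((hv m).mul (hv m'))).const_mul _
  simp_rw [h1]
  rw [integral_finsetSum _ fun m _ => integrable_finsetSum _ fun m' _ => hI m m']
  refine Finset.sum_congr rfl fun m _ => ?_
  rw [integral_finsetSum _ fun m' _ => hI m m']
  refine Finset.sum_congr rfl fun m' _ => ?_
  rw [integral_const_mul, fub (fun x => w1 x * (u m x * u m' x)) (fun x => v m x * v m' x)]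

/-- the inequality for one lattice point -/
lemma diag {δ R : ℝ} (hδ : 0 < δ) (hδ1 : δ ≤ 1) (hR : 2 ≤ R) {P x : ℝ} (hP : P ^ 2 ≤ 9 * R)
    (hx : x ≤ (1 + δ ^ 2 / 20) * R) :
    (1 + (δ / 9) ^ 2 / 2) * (π ^ 2 * x) + (δ / 9) ^ 2 * (P * π) ^ 2 / 2 +
      π ^ 2 * R * (δ ^ 2 / 200) ≤ π ^ 2 * R * (1 + (δ / 9) ^ 2 / 2 + δ * (δ / 9)) := by
  have hpi : 0 < π ^ 2 := by have := Real.pi_pos; positivity
  have h1 : (1 + (δ / 9) ^ 2 / 2) * x ≤ (1 + (δ / 9) ^ 2 / 2) * ((1 + δ ^ 2 / 20) * R) :=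
    mul_le_mul_of_nonneg_left hx (by positivity)
  have h2 : (δ / 9) ^ 2 * P ^ 2 / 2 ≤ (δ / 9) ^ 2 * (9 * R) / 2 := by gcongr
  have h3 : (1 + (δ / 9) ^ 2 / 2) * x + (δ / 9) ^ 2 * P ^ 2 / 2 + R * (δ ^ 2 / 200) ≤
      R * (1 + (δ / 9) ^ 2 / 2 + δ * (δ / 9)) := by
    have h4 : δ ^ 2 ≤ 1 := by nlinarith
    have h5 : 0 ≤ δ ^ 2 := sq_nonneg _
    have h6 : δ ^ 2 * δ ^ 2 ≤ δ ^ 2 := by nlinarith
    have h7 : R * (δ ^ 2 * δ ^ 2) ≤ R * δ ^ 2 := mul_le_mul_of_nonneg_left h6 (by linarith)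
    have h8 : 0 ≤ R * δ ^ 2 := by positivity
    nlinarith
  have h4 := mul_le_mul_of_nonneg_left h3 hpi.le
  calc _ = π ^ 2 * ((1 + (δ / 9) ^ 2 / 2) * x + (δ / 9) ^ 2 * P ^ 2 / 2 + R * (δ ^ 2 / 200)) := by
        ring
    _ ≤ _ := h4
    _ = _ := by ring

/-- test functions on the unit square which are adapted to the pattern `Q` -/
theorem dirU {δ R ε : ℝ} (hδ : 0 < δ) (hδ1 : δ ≤ 1) (hR : 2 ≤ R) (hε : 0 < ε) :
    ∃ (Q : ℂ → ℝ) (G : Fin (cD ((1 + δ ^ 2 / 20) * R)) → ℂ → ℝ) (κ : ℝ), 0 < κ ∧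
      (ContDiff ℝ 1 Q ∧ (∀ z, |Q z| ≤ 1) ∧ tsupport Q ⊆ Ioo 0 1 ×ℂ Ioo 0 1 ∧ |∫ z, Q z| ≤ ε) ∧
      (∀ m, ContDiff ℝ 1 (G m) ∧ tsupport (G m) ⊆ Ioo 0 1 ×ℂ Ioo 0 1) ∧
      ∀ c : Fin (cD ((1 + δ ^ 2 / 20) * R)) → ℝ,
        κ * ∑ m, (c m) ^ 2 ≤ ∫ z, (1 + δ * Q z) * (∑ m, c m * G m z) ^ 2 ∧
        ∫ z, ‖∑ m, c m • fderiv ℝ (G m) z‖ ^ 2 ≤
          π ^ 2 * R * ∫ z, (1 + δ * Q z) * (∑ m, c m * G m z) ^ 2 := by
  classical
  have hπ := Real.pi_pos
  obtain ⟨R₁, hR₁⟩ : ∃ R₁, R₁ = (1 + δ ^ 2 / 20) * R := ⟨_, rfl⟩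
  have hδ2 : δ ^ 2 ≤ 1 := by nlinarith
  have hR₁R : R₁ ≤ 21 / 20 * R := by rw [hR₁]; nlinarith
  have hR₁0 : 0 ≤ R₁ := by rw [hR₁]; positivity
  rw [← hR₁]
  obtain ⟨K, hK⟩ : ∃ K : ℕ, K = ⌊Real.sqrt R₁⌋₊ := ⟨_, rfl⟩
  have hKs : (K : ℝ) ≤ Real.sqrt R₁ := by rw [hK]; exact Nat.floor_le (Real.sqrt_nonneg _)
  have hK2 : (K : ℝ) ^ 2 ≤ R₁ := by
    have := pow_le_pow_left₀ (Nat.cast_nonneg K) hKs 2
    rwa [Real.sq_sqrt hR₁0] at this
  have hlt : ∀ k : ℕ, ((k : ℝ) + 1) ^ 2 ≤ R₁ → k < K := by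
    intro k hk
    have h1 : ((k + 1 : ℕ) : ℝ) ≤ Real.sqrt R₁ := by
      push_cast
      exact Real.le_sqrt_of_sq_le hk
    have h2 := Nat.le_floor h1
    omega
  obtain ⟨p, hp⟩ : ∃ p : ℤ, p = 2 * (K : ℤ) + 1 := ⟨_, rfl⟩
  have hpK : 2 * (K : ℤ) < p := by omega
  have hP : ((p : ℝ)) ^ 2 ≤ 9 * R := by
    have h1 : (p : ℝ) = 2 * (K : ℝ) + 1 := by rw [hp]; push_cast; ring
    rw [h1]
    nlinarith [sq_nonneg ((K : ℝ) - 1)]
  obtain ⟨a, ha⟩ : ∃ a : ℝ, a = δ / 9 := ⟨_, rfl⟩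
  have ha0 : 0 < a := by rw [ha]; positivity
  obtain ⟨m0, hm0⟩ : ∃ m0 : ℝ, m0 = 1 + a ^ 2 / 2 + δ * a := ⟨_, rfl⟩
  obtain ⟨m2, hm2⟩ : ∃ m2 : ℝ, m2 = 1 + a ^ 2 / 2 := ⟨_, rfl⟩
  obtain ⟨m1, hm1⟩ : ∃ m1 : ℝ, m1 = a ^ 2 * (p * π) ^ 2 / 2 := ⟨_, rfl⟩
  have hm00 : 1 ≤ m0 := by rw [hm0]; nlinarith [sq_nonneg a, mul_pos hδ ha0]
  have hm20 : 1 ≤ m2 := by rw [hm2]; nlinarith [sq_nonneg a]
  have hm10 : 0 ≤ m1 := by rw [hm1]; positivity
  let S : Type := {p : ℕ × ℕ // ((p.1 : ℝ) + 1) ^ 2 + ((p.2 : ℝ) + 1) ^ 2 ≤ R₁}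
  have hS : ∀ p : S, p.1.1 < K ∧ p.1.2 < K := by
    intro p
    have h1 := p.2
    exact ⟨hlt _ (by nlinarith [sq_nonneg ((p.1.2 : ℝ) + 1)]),
      hlt _ (by nlinarith [sq_nonneg ((p.1.1 : ℝ) + 1)])⟩
  have hfin : Finite S := by
    refine Finite.of_injective (fun p : S => ((⟨p.1.1, (hS p).1⟩, ⟨p.1.2, (hS p).2⟩) :
      Fin K × Fin K)) ?_
    intro p q hpq
    simp only [Prod.mk.injEq, Fin.mk.injEq] at hpq
    exact Subtype.ext (Prod.ext hpq.1 hpq.2)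
  have hcard : cD R₁ = Nat.card S := rfl
  rw [hcard]
  let e : S ≃ Fin (Nat.card S) := Finite.equivFin S
  let kk : Fin (Nat.card S) → Fin K := fun m => ⟨(e.symm m).1.1, (hS _).1⟩
  let ll : Fin (Nat.card S) → Fin K := fun m => ⟨(e.symm m).1.2, (hS _).2⟩
  have hinj : ∀ m m', kk m = kk m' → ll m = ll m' → m = m' := by
    intro m m' h1 h2
    have h3 := congrArg Fin.val h1
    have h4 := congrArg Fin.val h2
    exact e.symm.injective (Subtype.ext (Prod.ext h3 h4))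
  -- the numbers
  obtain ⟨sl, hsl⟩ : ∃ sl : ℝ, sl = π ^ 2 * R * (δ ^ 2 / 200) := ⟨_, rfl⟩
  have hsl0 : 0 < sl := by rw [hsl]; positivity
  obtain ⟨t0, ht0, ht1, ht2⟩ : ∃ t0 : ℝ, 0 < t0 ∧ t0 ≤ 1 / 2 ∧ t0 * (1 + π ^ 2 * R) ≤ sl := by
    refine ⟨min (1 / 2) (sl / (1 + π ^ 2 * R)), lt_min (by norm_num) (by positivity),
      min_le_left _ _, ?_⟩
    have h1 : min (1 / 2) (sl / (1 + π ^ 2 * R)) ≤ sl / (1 + π ^ 2 * R) := min_le_right _ _
    rwa [le_div_iff₀ (by positivity)] at h1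
  obtain ⟨N, hN⟩ : ∃ N : ℝ, N = ((Nat.card S : ℕ) : ℝ) := ⟨_, rfl⟩
  have hN0 : 0 ≤ N := by rw [hN]; exact Nat.cast_nonneg _
  obtain ⟨η, hη0, hη1⟩ : ∃ η : ℝ, 0 < η ∧ N * η ≤ t0 := by
    refine ⟨t0 / (N + 1), by positivity, ?_⟩
    rw [mul_div_assoc', div_le_iff₀ (by positivity)]
    nlinarith
  obtain ⟨M, hM0, hM1, hM2⟩ : ∃ M : ℝ, 0 ≤ M ∧ m0 ≤ M ∧ m2 * (π * K) ^ 2 + m1 + (π * K) ^ 2 + m2 ≤ M :=
    ⟨max m0 (m2 * (π * K) ^ 2 + m1 + (π * K) ^ 2 + m2), le_trans (by linarith) (le_max_left _ _),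
      le_max_left _ _, le_max_right _ _⟩
  have hM1' : 1 ≤ M := hm00.trans hM1
  have hq0 : 0 ≤ m2 * (π * K) ^ 2 := by positivity
  have hq1 : 0 ≤ (π * (K : ℝ)) ^ 2 := by positivity
  obtain ⟨ε', hε'0, hε'1, hε'2⟩ : ∃ ε' : ℝ, 0 < ε' ∧ ε' ≤ 1 ∧ ε' * (2 * M + 1) ≤ η / 2 := by
    refine ⟨min 1 (η / 2 / (2 * M + 1)), lt_min one_pos (by positivity), min_le_left _ _, ?_⟩
    have h1 : min 1 (η / 2 / (2 * M + 1)) ≤ η / 2 / (2 * M + 1) := min_le_right _ _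
    rwa [le_div_iff₀ (by positivity)] at h1
  -- the choice of `n`
  have ev : ∀ (g : ℕ → ℝ) (L : ℝ), Tendsto g atTop (𝓝 L) → ∀ᶠ n in atTop, |g n - L| ≤ ε' := by
    intro g L h
    have h2 := (h.sub_const L).abs
    rw [sub_self, abs_zero] at h2
    exact h2.eventually_le_const hε'0
  have e1 : ∀ k l : Fin K, ∀ᶠ n in atTop, |(∫ x, (1 + δ * q p n x) * (X a p n k x * X a p n l x)) -
      (if (k : ℕ) = (l : ℕ) then 1 + a ^ 2 / 2 + δ * a else 0)| ≤ ε' := fun k l =>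
    ev _ _ (limX hpK k.2 l.2 a δ)
  have e2 : ∀ k l : Fin K, ∀ᶠ n in atTop, |(∫ x, X a p n k x * X a p n l x) -
      (if (k : ℕ) = (l : ℕ) then 1 + a ^ 2 / 2 else 0)| ≤ ε' := fun k l =>
    ev _ _ (limX0 hpK k.2 l.2 a)
  have e3 : ∀ k l : Fin K, ∀ᶠ n in atTop, |(∫ x, Xd a p n k x * Xd a p n l x) -
      (if (k : ℕ) = (l : ℕ) then (1 + a ^ 2 / 2) * (π * (((k : ℕ) : ℝ) + 1)) ^ 2 +
        a ^ 2 * (p * π) ^ 2 / 2 else 0)| ≤ ε' := fun k l =>
    ev _ _ (limXd hpK k.2 l.2 a)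
  have e4 : ∀ k l : Fin K, ∀ᶠ n in atTop, |(∫ x, gg n k x * gg n l x) -
      (if (k : ℕ) = (l : ℕ) then 1 else 0)| ≤ ε' := fun k l => ev _ _ (lim1 k l)
  have e5 : ∀ k l : Fin K, ∀ᶠ n in atTop, |(∫ x, gd n k x * gd n l x) -
      (if (k : ℕ) = (l : ℕ) then (π * (((k : ℕ) : ℝ) + 1)) ^ 2 else 0)| ≤ ε' := fun k l =>
    ev _ _ (lim2 k l)
  have e6 : ∀ᶠ n in atTop, |∫ x, q p n x| ≤ ε := by
    have h := (limq (p := p) (by omega)).abs
    rw [abs_zero] at h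
    exact h.eventually_le_const hε
  obtain ⟨n, f1, f2, f3, f4, f5, f6, f7, f8⟩ :=
    ((eventually_all.2 fun k => eventually_all.2 fun l => e1 k l).and
      ((eventually_all.2 fun k => eventually_all.2 fun l => e2 k l).and
      ((eventually_all.2 fun k => eventually_all.2 fun l => e3 k l).and
      ((eventually_all.2 fun k => eventually_all.2 fun l => e4 k l).and
      ((eventually_all.2 fun k => eventually_all.2 fun l => e5 k l).and
      (e6.and (J_half.and (eventually_gt_atTop 2)))))))).exists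
  have hn0 : 0 < n := by omega
  have hn' : (0 : ℝ) < n := by exact_mod_cast hn0
  have hJ : J n 1 ≠ 0 := by linarith
  have sX : ∀ k, tsupport (X a p n k) ⊆ Ioo 0 1 := fun k =>
    tsub (b := 1 / (n : ℝ)) (by positivity) (X_supp a p k hn0 hJ)
  have sg : ∀ k, tsupport (gg n k) ⊆ Ioo 0 1 := fun k =>
    tsub (b := 1 / (n : ℝ)) (by positivity) (gg_supp k hn0 hJ)
  have sc : tsupport (chi n) ⊆ Ioo 0 1 :=
    tsub (b := 1 / (2 * (n : ℝ))) (by positivity) (chi_supp hn0)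
  have sq : tsupport (q p n) ⊆ Ioo 0 1 := by
    refine tsub (b := 1 / (2 * (n : ℝ))) (by positivity) (subset_trans (fun x hx => ?_)
      (chi_supp hn0))
    intro h
    exact hx (by unfold q; rw [h, mul_zero])
  have cX : ∀ k, CC (X a p n k) := fun k => cc_of (X_cont a p n k) (sX k)
  have cg : ∀ k, CC (gg n k) := fun k => cc_of (gg_cont n k) (sg k)
  have dX : ∀ k, deriv (X a p n k) = Xd a p n k := fun k => funext fun x => (X_deriv a p n k x).deriv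
  have dg : ∀ k, deriv (gg n k) = gd n k := fun k => funext fun x => (gg_deriv n k x).deriv
  have cXd : ∀ k, CC (Xd a p n k) := fun k => ⟨Xd_cont a p n k, by
    rw [← dX k]
    exact (cX k).2.deriv⟩
  have cgd : ∀ k, CC (gd n k) := fun k => ⟨gd_cont n k, by
    rw [← dg k]
    exact (cg k).2.deriv⟩
  have cq : Continuous fun x => 1 + δ * q p n x :=
    continuous_const.add (continuous_const.mul (q_smooth p n).continuous)
  have hF : ∀ m z, HasFDerivAt (fun z : ℂ => X a p n (kk m) z.re * gg n (ll m) z.im)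
      ((Xd a p n (kk m) z.re * gg n (ll m) z.im) • Complex.reCLM +
        (X a p n (kk m) z.re * gd n (ll m) z.im) • Complex.imCLM) z := by
    intro m z
    have h3 := (X_deriv a p n (kk m) z.re).comp_hasFDerivAt z Complex.reCLM.hasFDerivAt
    have h4 := (gg_deriv n (ll m) z.im).comp_hasFDerivAt z Complex.imCLM.hasFDerivAt
    have h5 := h3.mul h4
    refine h5.congr_fderiv ?_
    ext <;> (simp; ring)
  refine ⟨fun z => q p n z.re * chi n z.im, fun m z => X a p n (kk m) z.re * gg n (ll m) z.im,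
    m0 - t0, by linarith, ⟨?_, ?_, ?_, ?_⟩, ?_, ?_⟩
  · exact ((q_smooth p n).comp Complex.reCLM.contDiff).mul
      ((chi_smooth n).comp Complex.imCLM.contDiff)
  · intro z
    rw [abs_mul]
    refine mul_le_one₀ (q_abs p n _) (abs_nonneg _) ?_
    rw [abs_of_nonneg (chi_nonneg n _)]
    exact chi_le n _
  · exact tsupport2 sq sc
  · rw [fub (q p n) (chi n), abs_mul]
    calc |∫ x, q p n x| * |∫ y, chi n y| ≤ ε * 1 :=
          mul_le_mul f6 (chi_int n) (abs_nonneg _) hε.le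
      _ = ε := mul_one _
  · intro m
    exact ⟨((X_smooth a p n _).comp Complex.reCLM.contDiff).mul
      ((gg_contDiff n _).comp Complex.imCLM.contDiff), tsupport2 (sX _) (sg _)⟩
  intro c
  have hQ1 := quadW c (fun z => 1 + δ * (q p n z.re * chi n z.im)) (fun x => 1 + δ * q p n x) cq
    (fun m => X a p n (kk m)) (fun m => gg n (ll m)) (fun m => cX _) (fun m => cg _)
    (fun m z hz => by rw [chi_gg n (ll m) z.im hJ hz, mul_one])
  obtain ⟨iA, hA⟩ := quad c (fun m => Xd a p n (kk m)) (fun m => gg n (ll m)) (fun m => cXd _)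
    fun m => cg _
  obtain ⟨iB, hB⟩ := quad c (fun m => X a p n (kk m)) (fun m => gd n (ll m)) (fun m => cX _)
    fun m => cgd _
  set Q := ∫ z : ℂ, (1 + δ * (q p n z.re * chi n z.im)) *
    (∑ m, c m * (X a p n (kk m) z.re * gg n (ll m) z.im)) ^ 2 with hQ
  set C := ∑ m, c m ^ 2 with hC
  have hC0 : 0 ≤ C := Finset.sum_nonneg fun m _ => sq_nonneg _
  have hkK : ∀ k : Fin K, (π * (((k : ℕ) : ℝ) + 1)) ^ 2 ≤ (π * K) ^ 2 := by
    intro k
    have h1 : ((k : ℕ) : ℝ) + 1 ≤ (K : ℝ) := by exact_mod_cast k.2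
    have h2 : (0 : ℝ) ≤ ((k : ℕ) : ℝ) := Nat.cast_nonneg _
    gcongr
  have b1 : ∀ k l : Fin K, |if (k : ℕ) = (l : ℕ) then 1 + a ^ 2 / 2 + δ * a else 0| ≤ M := by
    intro k l
    split_ifs
    · rw [← hm0, abs_of_nonneg (by linarith)]
      exact hM1
    · rw [abs_zero]
      exact hM0
  have b2 : ∀ k l : Fin K, |if (k : ℕ) = (l : ℕ) then 1 + a ^ 2 / 2 else 0| ≤ M := by
    intro k l
    split_ifs
    · rw [← hm2, abs_of_nonneg (by linarith)]
      linarith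
    · rw [abs_zero]
      exact hM0
  have b3 : ∀ k l : Fin K, |if (k : ℕ) = (l : ℕ) then (1 + a ^ 2 / 2) *
      (π * (((k : ℕ) : ℝ) + 1)) ^ 2 + a ^ 2 * (p * π) ^ 2 / 2 else 0| ≤ M := by
    intro k l
    split_ifs
    · rw [← hm2, ← hm1, abs_of_nonneg (by positivity)]
      have := mul_le_mul_of_nonneg_left (hkK k) (by linarith : 0 ≤ m2)
      linarith
    · rw [abs_zero]
      exact hM0
  have b4 : ∀ k l : Fin K, |if (k : ℕ) = (l : ℕ) then (1 : ℝ) else 0| ≤ M := by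
    intro k l
    split_ifs
    · rw [abs_one]
      exact hM1'
    · rw [abs_zero]
      exact hM0
  have b5 : ∀ k l : Fin K,
      |if (k : ℕ) = (l : ℕ) then (π * (((k : ℕ) : ℝ) + 1)) ^ 2 else 0| ≤ M := by
    intro k l
    split_ifs
    · rw [abs_of_nonneg (by positivity)]
      have := hkK k
      linarith
    · rw [abs_zero]
      exact hM0
  have hite : ∀ (m m' : Fin (Nat.card S)) (x y : ℝ),
      (if (kk m : ℕ) = (kk m' : ℕ) then x else 0) * (if (ll m : ℕ) = (ll m' : ℕ) then y else 0) =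
        if m = m' then x * y else 0 := by
    intro m m' x y
    by_cases h1 : m = m'
    · subst h1
      simp
    · rw [if_neg h1]
      by_cases h2 : (kk m : ℕ) = (kk m' : ℕ)
      · have h3 : ¬ ((ll m : ℕ) = (ll m' : ℕ)) := fun h3 => h1 (hinj m m' (Fin.ext h2) (Fin.ext h3))
        rw [if_neg h3, mul_zero]
      · rw [if_neg h2, zero_mul]
  -- the first form
  have hlow : |Q - m0 * C| ≤ N * η * C := by
    have h1 := near (fun m m' => (∫ x, (1 + δ * q p n x) * (X a p n (kk m) x * X a p n (kk m') x)) *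
        ∫ x, gg n (ll m) x * gg n (ll m') x)
      (fun _ => m0) (δ := η) (fun m m' => by
        have h2 := prod_near (f1 (kk m) (kk m')) (f4 (ll m) (ll m')) (b1 _ _) (b4 _ _) hε'1
        rw [hite, mul_one, ← hm0] at h2
        linarith) c
    rw [Fintype.card_fin, ← hN, ← Finset.mul_sum] at h1
    rw [hQ1]
    exact h1
  -- the second form
  have hup : ∫ z : ℂ, ‖∑ m, c m •
      fderiv ℝ (fun z : ℂ => X a p n (kk m) z.re * gg n (ll m) z.im) z‖ ^ 2 ≤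
      (π ^ 2 * R * m0 - sl + N * η) * C := by
    have h1 : ∀ z : ℂ,
        ‖∑ m, c m • fderiv ℝ (fun z : ℂ => X a p n (kk m) z.re * gg n (ll m) z.im) z‖ ^ 2 ≤
        (∑ m, c m * (Xd a p n (kk m) z.re * gg n (ll m) z.im)) ^ 2 +
          (∑ m, c m * (X a p n (kk m) z.re * gd n (ll m) z.im)) ^ 2 := by
      intro z
      have h2 : ∑ m, c m • fderiv ℝ (fun z : ℂ => X a p n (kk m) z.re * gg n (ll m) z.im) z =
          (∑ m, c m * (Xd a p n (kk m) z.re * gg n (ll m) z.im)) • Complex.reCLM +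
          (∑ m, c m * (X a p n (kk m) z.re * gd n (ll m) z.im)) • Complex.imCLM := by
        rw [Finset.sum_smul, Finset.sum_smul, ← Finset.sum_add_distrib]
        refine Finset.sum_congr rfl fun m _ => ?_
        rw [(hF m z).fderiv, smul_add, smul_smul, smul_smul]
      rw [h2]
      exact norm_fun _ _
    have h3 : ∫ z : ℂ, ‖∑ m, c m •
        fderiv ℝ (fun z : ℂ => X a p n (kk m) z.re * gg n (ll m) z.im) z‖ ^ 2 ≤
        ∫ z : ℂ, ((∑ m, c m * (Xd a p n (kk m) z.re * gg n (ll m) z.im)) ^ 2 +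
          (∑ m, c m * (X a p n (kk m) z.re * gd n (ll m) z.im)) ^ 2) :=
      integral_mono_of_nonneg (Eventually.of_forall fun z => sq_nonneg _) (iA.add iB)
        (Eventually.of_forall h1)
    refine h3.trans ?_
    rw [integral_add iA iB, hA, hB, ← Finset.sum_add_distrib]
    have h4 := near (fun m m' =>
      (∫ x, Xd a p n (kk m) x * Xd a p n (kk m') x) * (∫ x, gg n (ll m) x * gg n (ll m') x) +
      (∫ x, X a p n (kk m) x * X a p n (kk m') x) * ∫ x, gd n (ll m) x * gd n (ll m') x)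
      (fun m => (m2 * (π * (((kk m : ℕ) : ℝ) + 1)) ^ 2 + m1) +
        m2 * (π * (((ll m : ℕ) : ℝ) + 1)) ^ 2)
      (δ := η) (fun m m' => by
        have h5 := prod_near (f3 (kk m) (kk m')) (f4 (ll m) (ll m')) (b3 _ _) (b4 _ _) hε'1
        have h6 := prod_near (f2 (kk m) (kk m')) (f5 (ll m) (ll m')) (b2 _ _) (b5 _ _) hε'1
        rw [hite, mul_one, ← hm2, ← hm1] at h5
        rw [hite, ← hm2] at h6
        obtain ⟨a1, a2⟩ := abs_le.1 h5
        obtain ⟨b1, b2⟩ := abs_le.1 h6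
        by_cases h7 : m = m'
        · simp only [if_pos h7] at a1 a2 b1 b2 ⊢
          rw [abs_le]
          constructor <;> linarith
        · simp only [if_neg h7] at a1 a2 b1 b2 ⊢
          rw [abs_le]
          constructor <;> linarith) c
    rw [Fintype.card_fin, ← hN, ← hC] at h4
    have h8 : ∑ m, ((m2 * (π * (((kk m : ℕ) : ℝ) + 1)) ^ 2 + m1) +
        m2 * (π * (((ll m : ℕ) : ℝ) + 1)) ^ 2) * c m ^ 2 ≤ (π ^ 2 * R * m0 - sl) * C := by
      rw [hC, Finset.mul_sum]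
      refine Finset.sum_le_sum fun m _ => mul_le_mul_of_nonneg_right ?_ (sq_nonneg _)
      have h9 : (((e.symm m).1.1 : ℝ) + 1) ^ 2 + (((e.symm m).1.2 : ℝ) + 1) ^ 2 ≤ R₁ :=
        (e.symm m).2
      have h10 := diag hδ hδ1 hR hP (h9.trans_eq hR₁)
      rw [← ha, ← hsl, ← hm2, ← hm1] at h10
      have h11 : m0 = m2 + δ * a := by rw [hm0, hm2]
      rw [← h11] at h10
      have h12 : ((kk m : ℕ) : ℝ) = ((e.symm m).1.1 : ℝ) := rfl
      have h13 : ((ll m : ℕ) : ℝ) = ((e.symm m).1.2 : ℝ) := rfl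
      rw [h12, h13]
      nlinarith [h10]
    have h11 := (abs_le.1 h4).2
    have h12 : ∑ m, (∑ m', c m * c m' *
        ((∫ x, Xd a p n (kk m) x * Xd a p n (kk m') x) * ∫ x, gg n (ll m) x * gg n (ll m') x) +
        ∑ m', c m * c m' *
        ((∫ x, X a p n (kk m) x * X a p n (kk m') x) * ∫ x, gd n (ll m) x * gd n (ll m') x)) =
        ∑ m, ∑ m', c m * c m' *
      ((∫ x, Xd a p n (kk m) x * Xd a p n (kk m') x) * (∫ x, gg n (ll m) x * gg n (ll m') x) +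
      (∫ x, X a p n (kk m) x * X a p n (kk m') x) * ∫ x, gd n (ll m) x * gd n (ll m') x) := by
      refine Finset.sum_congr rfl fun m _ => ?_
      rw [← Finset.sum_add_distrib]
      refine Finset.sum_congr rfl fun m' _ => ?_
      ring
    rw [h12]
    linarith
  have hNηC : N * η * C ≤ t0 * C := mul_le_mul_of_nonneg_right hη1 hC0
  have hQlow : (m0 - t0) * C ≤ Q := by
    have := (abs_le.1 hlow).1
    linarith
  refine ⟨hQlow, hup.trans ?_⟩
  have hpr : 0 ≤ π ^ 2 * R := by positivity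
  calc (π ^ 2 * R * m0 - sl + N * η) * C ≤ (π ^ 2 * R * (m0 - t0)) * C := by
        refine mul_le_mul_of_nonneg_right ?_ hC0
        nlinarith
    _ = π ^ 2 * R * ((m0 - t0) * C) := by ring
    _ ≤ π ^ 2 * R * Q := mul_le_mul_of_nonneg_left hQlow hpr

end Pool.Agent.H15.WR
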